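import Pool.Agent.P30.UnitIntervalC

/-!
`m` is larger than `10 ^ 4 (2 b + 1) ^ 4` in every solution with `b ≥ 149`.
-/

set_option autoImplicit false

namespace Pool.Agent.VO5

open Finset Pool.Agent.P30.UnitInterval

lemma block_le {a b m s : ℕ} (h : Sol a b m s) (hb : 149 ≤ b) (P : Finset ℕ)
    (hP : ∀ p ∈ P, p.Prime ∧ p ≤ b ∧ b < 3 * p) : ∏ p ∈ P, p ≤ m := by
  refine Nat.le_of_dvd h.hm ?_
  apply Finset.prod_primes_dvd
  · intro p hp
    exact (hP p hp).1.prime
  · intro p hp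
    exact prime_dvd h hb (hP p hp).1 (hP p hp).2.1 (hP p hp).2.2

lemma block0 {a b m s : ℕ} (h : Sol a b m s) (h1 : 149 ≤ b) (h2 : b ≤ 320) :
    10 ^ 4 * (2 * b + 1) ^ 4 ≤ m := by
  have h3 := block_le h (by omega) {149, 139, 137, 131, 127, 113, 109, 107} (by
    simp only [Finset.mem_insert, Finset.mem_singleton, forall_eq_or_imp, forall_eq]
    refine ⟨⟨by norm_num, by omega, by omega⟩, ⟨by norm_num, by omega, by omega⟩, ⟨by norm_num, by omega, by omega⟩, ⟨by norm_num, by omega, by omega⟩, ⟨by norm_num, by omega, by omega⟩, ⟨by norm_num, by omega, by omega⟩, ⟨by norm_num, by omega, by omega⟩, ⟨by norm_num, by omega, by omega⟩⟩)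
  have h4 : ∏ p ∈ ({149, 139, 137, 131, 127, 113, 109, 107} : Finset ℕ), p = 62213605580201021 := by decide
  rw [h4] at h3
  have h5 : (2 * b + 1) ^ 4 ≤ 641 ^ 4 := Nat.pow_le_pow_left (by omega) 4
  calc 10 ^ 4 * (2 * b + 1) ^ 4 ≤ 10 ^ 4 * 641 ^ 4 := Nat.mul_le_mul_left _ h5
    _ ≤ 62213605580201021 := by norm_num
    _ ≤ m := h3

lemma block1 {a b m s : ℕ} (h : Sol a b m s) (h1 : 321 ≤ b) (h2 : b ≤ 830) :
    10 ^ 4 * (2 * b + 1) ^ 4 ≤ m := by
  have h3 := block_le h (by omega) {317, 313, 311, 307, 293, 283, 281, 277} (by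
    simp only [Finset.mem_insert, Finset.mem_singleton, forall_eq_or_imp, forall_eq]
    refine ⟨⟨by norm_num, by omega, by omega⟩, ⟨by norm_num, by omega, by omega⟩, ⟨by norm_num, by omega, by omega⟩, ⟨by norm_num, by omega, by omega⟩, ⟨by norm_num, by omega, by omega⟩, ⟨by norm_num, by omega, by omega⟩, ⟨by norm_num, by omega, by omega⟩, ⟨by norm_num, by omega, by omega⟩⟩)
  have h4 : ∏ p ∈ ({317, 313, 311, 307, 293, 283, 281, 277} : Finset ℕ), p = 61142403828089875651 := by decide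
  rw [h4] at h3
  have h5 : (2 * b + 1) ^ 4 ≤ 1661 ^ 4 := Nat.pow_le_pow_left (by omega) 4
  calc 10 ^ 4 * (2 * b + 1) ^ 4 ≤ 10 ^ 4 * 1661 ^ 4 := Nat.mul_le_mul_left _ h5
    _ ≤ 61142403828089875651 := by norm_num
    _ ≤ m := h3

lemma block2 {a b m s : ℕ} (h : Sol a b m s) (h1 : 831 ≤ b) (h2 : b ≤ 2360) :
    10 ^ 4 * (2 * b + 1) ^ 4 ≤ m := by
  have h3 := block_le h (by omega) {829, 827, 823, 821, 811, 809, 797, 787} (by
    simp only [Finset.mem_insert, Finset.mem_singleton, forall_eq_or_imp, forall_eq]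
    refine ⟨⟨by norm_num, by omega, by omega⟩, ⟨by norm_num, by omega, by omega⟩, ⟨by norm_num, by omega, by omega⟩, ⟨by norm_num, by omega, by omega⟩, ⟨by norm_num, by omega, by omega⟩, ⟨by norm_num, by omega, by omega⟩, ⟨by norm_num, by omega, by omega⟩, ⟨by norm_num, by omega, by omega⟩⟩)
  have h4 : ∏ p ∈ ({829, 827, 823, 821, 811, 809, 797, 787} : Finset ℕ), p = 190636239282683486702929 := by decide
  rw [h4] at h3
  have h5 : (2 * b + 1) ^ 4 ≤ 4721 ^ 4 := Nat.pow_le_pow_left (by omega) 4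
  calc 10 ^ 4 * (2 * b + 1) ^ 4 ≤ 10 ^ 4 * 4721 ^ 4 := Nat.mul_le_mul_left _ h5
    _ ≤ 190636239282683486702929 := by norm_num
    _ ≤ m := h3

lemma block3 {a b m s : ℕ} (h : Sol a b m s) (h1 : 2361 ≤ b) (h2 : b ≤ 6926) :
    10 ^ 4 * (2 * b + 1) ^ 4 ≤ m := by
  have h3 := block_le h (by omega) {2357, 2351, 2347, 2341, 2339, 2333, 2311, 2309} (by
    simp only [Finset.mem_insert, Finset.mem_singleton, forall_eq_or_imp, forall_eq]
    refine ⟨⟨by norm_num, by omega, by omega⟩, ⟨by norm_num, by omega, by omega⟩, ⟨by norm_num, by omega, by omega⟩, ⟨by norm_num, by omega, by omega⟩, ⟨by norm_num, by omega, by omega⟩, ⟨by norm_num, by omega, by omega⟩, ⟨by norm_num, by omega, by omega⟩, ⟨by norm_num, by omega, by omega⟩⟩)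
  have h4 : ∏ p ∈ ({2357, 2351, 2347, 2341, 2339, 2333, 2311, 2309} : Finset ℕ), p = 886534322115835625135268257 := by decide
  rw [h4] at h3
  have h5 : (2 * b + 1) ^ 4 ≤ 13853 ^ 4 := Nat.pow_le_pow_left (by omega) 4
  calc 10 ^ 4 * (2 * b + 1) ^ 4 ≤ 10 ^ 4 * 13853 ^ 4 := Nat.mul_le_mul_left _ h5
    _ ≤ 886534322115835625135268257 := by norm_num
    _ ≤ m := h3

lemma block4 {a b m s : ℕ} (h : Sol a b m s) (h1 : 6927 ≤ b) (h2 : b ≤ 19999) :
    10 ^ 4 * (2 * b + 1) ^ 4 ≤ m := by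
  have h3 := block_le h (by omega) {6917, 6911, 6907, 6899, 6883, 6871, 6869, 6863} (by
    simp only [Finset.mem_insert, Finset.mem_singleton, forall_eq_or_imp, forall_eq]
    refine ⟨⟨by norm_num, by omega, by omega⟩, ⟨by norm_num, by omega, by omega⟩, ⟨by norm_num, by omega, by omega⟩, ⟨by norm_num, by omega, by omega⟩, ⟨by norm_num, by omega, by omega⟩, ⟨by norm_num, by omega, by omega⟩, ⟨by norm_num, by omega, by omega⟩, ⟨by norm_num, by omega, by omega⟩⟩)
  have h4 : ∏ p ∈ ({6917, 6911, 6907, 6899, 6883, 6871, 6869, 6863} : Finset ℕ), p = 5078547314879374703861537586461 := by decide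
  rw [h4] at h3
  have h5 : (2 * b + 1) ^ 4 ≤ 39999 ^ 4 := Nat.pow_le_pow_left (by omega) 4
  calc 10 ^ 4 * (2 * b + 1) ^ 4 ≤ 10 ^ 4 * 39999 ^ 4 := Nat.mul_le_mul_left _ h5
    _ ≤ 5078547314879374703861537586461 := by norm_num
    _ ≤ m := h3

lemma log_m_theta {a b m s : ℕ} (h : Sol a b m s) (hb149 : 149 ≤ b) :
    (b : ℝ) * Real.log 2 - Real.log (b + 1) - 2 * √b * Real.log b - Real.log 4 * ((b : ℝ) / 3) ≤
      Real.log m := by
  set P := (Nat.primesLE b).filter (fun p => b < 3 * p) with hP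
  have hle : ∏ p ∈ P, p ≤ m := block_le h hb149 P (by
    intro p hp
    rw [hP, Finset.mem_filter, Nat.mem_primesLE] at hp
    exact ⟨hp.1.2, hp.1.1, hp.2⟩)
  have hprodpos : 0 < ∏ p ∈ P, p := Finset.prod_pos (fun p hp => by
      rw [hP, Finset.mem_filter, Nat.mem_primesLE] at hp
      exact hp.1.2.pos)
  have h1 : Real.log ((∏ p ∈ P, p : ℕ) : ℝ) ≤ Real.log m := by
    apply Real.log_le_log
    · exact_mod_cast hprodpos
    · exact_mod_cast hle
  have h2 : Real.log ((∏ p ∈ P, p : ℕ) : ℝ) = ∑ p ∈ P, Real.log p := by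
    push_cast
    rw [Real.log_prod]
    intro p hp
    rw [hP, Finset.mem_filter, Nat.mem_primesLE] at hp
    exact_mod_cast hp.1.2.pos.ne'
  have h3 : Chebyshev.theta (b : ℝ) = Chebyshev.theta ((b / 3 : ℕ) : ℝ) + ∑ p ∈ P, Real.log p := by
    rw [Chebyshev.theta_eq_sum_primesLE_log, Chebyshev.theta_eq_sum_primesLE_log]
    have h4 : Nat.primesLE (b / 3) = (Nat.primesLE b).filter (fun p => ¬ (b < 3 * p)) := by
      ext p
      rw [Finset.mem_filter, Nat.mem_primesLE, Nat.mem_primesLE]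
      constructor
      · rintro ⟨h5, h6⟩
        exact ⟨⟨by omega, h6⟩, by omega⟩
      · rintro ⟨⟨h5, h6⟩, h7⟩
        exact ⟨by omega, h6⟩
    rw [h4, add_comm, hP, Finset.sum_filter_add_sum_filter_not]
  have h4 := Chebyshev.theta_ge b
  have h5 : Chebyshev.theta ((b / 3 : ℕ) : ℝ) ≤ Real.log 4 * ((b : ℝ) / 3) := by
    refine le_trans (Chebyshev.theta_le_log4_mul_x (by positivity)) ?_
    apply mul_le_mul_of_nonneg_left
    · exact Nat.cast_div_le
    · exact Real.log_nonneg (by norm_num)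
  linarith

lemma log_le_sqrt {b : ℝ} (hb : 20000 ≤ b) : Real.log b ≤ 0.074 * √b := by
  have hanti := Real.log_div_sqrt_antitoneOn
  have h1 : Real.exp 2 ≤ 20000 := by
    have h2 := Real.exp_one_lt_d9
    have h3 : Real.exp 2 = Real.exp 1 * Real.exp 1 := by rw [← Real.exp_add]; norm_num
    rw [h3]
    have h4 := Real.exp_pos 1
    nlinarith
  have h2 : Real.log b / √b ≤ Real.log 20000 / √20000 :=
    hanti (a := 20000) (b := b) h1 (le_trans h1 hb) hb
  have h3 : Real.log 20000 ≤ 10.398 := by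
    have h4 : Real.log 20000 ≤ Real.log (2 ^ 15) := Real.log_le_log (by norm_num) (by norm_num)
    rw [Real.log_pow] at h4
    have h5 := Real.log_two_lt_d9
    push_cast at h4
    linarith
  have h4 : (141 : ℝ) ≤ √20000 := by
    apply Real.le_sqrt_of_sq_le
    norm_num
  have h5 : Real.log 20000 / √20000 ≤ 0.074 := by
    rw [div_le_iff₀ (by linarith)]
    linarith
  have h6 : 0 < √b := Real.sqrt_pos.mpr (by linarith)
  have h7 := le_trans h2 h5
  rwa [div_le_iff₀ h6] at h7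

lemma big {a b m s : ℕ} (h : Sol a b m s) (hb : 20000 ≤ b) : 10 ^ 4 * (2 * b + 1) ^ 4 ≤ m := by
  have h1 := log_m_theta h (by omega)
  have hbR : (20000 : ℝ) ≤ b := by exact_mod_cast hb
  have hb0 : (0 : ℝ) < b := by linarith
  have h2 := log_le_sqrt hbR
  set y := √(b : ℝ) with hy
  have hy2 : y * y = b := Real.mul_self_sqrt hb0.le
  have hy141 : (141 : ℝ) ≤ y := by
    rw [hy]
    apply Real.le_sqrt_of_sq_le
    linarith [show (141 : ℝ) ^ 2 ≤ 20000 by norm_num]
  have h4 : Real.log 4 = 2 * Real.log 2 := by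
    rw [show (4 : ℝ) = 2 ^ 2 by norm_num, Real.log_pow]
    norm_num
  have hl2 := Real.log_two_gt_d9
  have hl2' := Real.log_two_lt_d9
  have h5 : 2 * y * Real.log b ≤ 0.148 * b := by
    have : 2 * y * Real.log b ≤ 2 * y * (0.074 * y) :=
      mul_le_mul_of_nonneg_left h2 (by linarith)
    nlinarith
  -- `log (2 b + 1) ≤ 1.4 + 0.001 b`
  have h6 : Real.log (2 * b + 1) ≤ 1.4 + 0.001 * b := by
    have e1 : Real.log (2 * b + 1) ≤ Real.log (4 * b) :=
      Real.log_le_log (by linarith) (by linarith)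
    rw [Real.log_mul (by norm_num) hb0.ne', h4] at e1
    have e2 : 0.074 * y ≤ 0.001 * b := by nlinarith
    linarith
  have h7 : Real.log (b + 1) ≤ 1.4 + 0.001 * b :=
    le_trans (Real.log_le_log (by linarith) (by linarith)) h6
  have h8 : Real.log (((10 ^ 4 * (2 * b + 1) ^ 4 : ℕ)) : ℝ) ≤ Real.log m := by
    push_cast
    rw [Real.log_mul (by norm_num) (by positivity), Real.log_pow]
    have e3 : Real.log 10000 ≤ 11.2 := by
      have e4 : Real.log 10000 ≤ Real.log (2 ^ 16) := Real.log_le_log (by norm_num) (by norm_num)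
      have e5 : Real.log ((2 : ℝ) ^ 16) = 16 * Real.log 2 := by rw [Real.log_pow]; norm_num
      rw [e5] at e4
      linarith
    push_cast
    rw [h4] at h1
    nlinarith
  have hm0 : (0 : ℝ) < m := by
    have := h.hm
    exact_mod_cast this
  have h9 := (Real.log_le_log_iff (by positivity) hm0).mp h8
  exact_mod_cast h9

/-- in every solution with `b ≥ 149` -/
theorem m_large' {a b m s : ℕ} (h : Sol a b m s) (hb : 149 ≤ b) :
    10 ^ 4 * (2 * b + 1) ^ 4 ≤ m := by
  rcases Nat.lt_or_ge b 20000 with h1 | h1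
  · rcases Nat.lt_or_ge b 321 with g0 | g0
    · exact block0 h (by omega) (by omega)
    · rcases Nat.lt_or_ge b 831 with g1 | g1
      · exact block1 h (by omega) (by omega)
      · rcases Nat.lt_or_ge b 2361 with g2 | g2
        · exact block2 h (by omega) (by omega)
        · rcases Nat.lt_or_ge b 6927 with g3 | g3
          · exact block3 h (by omega) (by omega)
          · exact block4 h (by omega) (by omega)
  · exact big h h1

theorem m_large {a b m : ℕ} (h : Sol a b m 1) (hb : 149 ≤ b) : 10 ^ 4 * (2 * b + 1) ^ 4 ≤ m :=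
  m_large' h hb

end Pool.Agent.VO5
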