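import Pool.Agent.UCF.Main

/-!
Level one with explicit constants (helper5): for a solution of value `1` with `149 ≤ b` the product `V |U - coth (1/2) V|`
lies between `0.19` and `0.21`.
-/

namespace Pool.Agent.VO5

open Pool.Agent.P30.UnitInterval Pool.Agent.UCF

theorem hs_ge_log {a b : ℕ} (h : a ≤ b) : Real.log ((b : ℝ) + 1) - Real.log ((a : ℝ) + 1) ≤ ((hs a b : ℚ) : ℝ) := by
  induction b, h using Nat.le_induction with
  | base =>
    have : hs a a = 0 := by simp [hs]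
    rw [this]
    simp
  | succ b hab ih =>
    have h1 : hs a (b + 1) = hs a b + 1 / ((b : ℚ) + 1) := by
      rw [← hs_add hab (Nat.le_succ b)]
      have : hs b (b + 1) = 1 / ((b : ℚ) + 1) := by
        unfold hs
        rw [Nat.Ioc_succ_singleton, Finset.sum_singleton]
        push_cast
        rfl
      rw [this]
    rw [h1]
    push_cast
    have hb : (0 : ℝ) < (b : ℝ) + 1 := by positivity
    have h2 := Real.log_le_sub_one_of_pos (x := ((b : ℝ) + 1 + 1) / ((b : ℝ) + 1)) (by positivity)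
    rw [Real.log_div (by positivity) (by positivity)] at h2
    have h3 : ((b : ℝ) + 1 + 1) / ((b : ℝ) + 1) - 1 = 1 / ((b : ℝ) + 1) := by
      field_simp
      ring
    rw [h3] at h2
    linarith

theorem real_eq {a b m : ℕ} (h : Sol a b m 1) : ((hs a b : ℚ) : ℝ) = 1 - 1 / m := by
  have h4 := h.eq
  have h5 : hs a b = (1 : ℚ) - 1 / m := by push_cast at h4; linarith
  rw [h5]
  push_cast
  rfl

/-- `a` is not small -/
theorem a_large {a b m : ℕ} (h : Sol a b m 1) (hb : 149 ≤ b) : 55 ≤ a := by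
  have h1 := hs_ge_log h.hab.le
  rw [real_eq h] at h1
  have hm : (0 : ℝ) ≤ 1 / m := by positivity
  have ha0 : (0 : ℝ) < (a : ℝ) + 1 := by positivity
  have hb0 : (0 : ℝ) < (b : ℝ) + 1 := by positivity
  have h2 : Real.log (((b : ℝ) + 1) / ((a : ℝ) + 1)) ≤ 1 := by
    rw [Real.log_div hb0.ne' ha0.ne']; linarith
  rw [Real.log_le_iff_le_exp (by positivity), div_le_iff₀ ha0] at h2
  have he := Real.exp_one_lt_d9
  have hb' : (149 : ℝ) ≤ b := by exact_mod_cast hb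
  have h3 : (b : ℝ) + 1 ≤ 2.7182818286 * ((a : ℝ) + 1) := h2.trans (mul_le_mul_of_nonneg_right he.le ha0.le)
  by_contra hc
  push Not at hc
  have : (a : ℝ) ≤ 54 := by exact_mod_cast (by omega : a ≤ 54)
  norm_num at h3
  linarith

theorem level_one {a b m : ℕ} (h : Sol a b m 1) (hb : 149 ≤ b) (hm : 10 ^ 4 * (2 * b + 1) ^ 4 ≤ m) :
    (19 / 100 : ℝ) ≤ ((b - a : ℕ) : ℝ) * |((a + b + 1 : ℕ) : ℝ) - hh 1 * ((b - a : ℕ) : ℝ)| ∧
    ((b - a : ℕ) : ℝ) * |((a + b + 1 : ℕ) : ℝ) - hh 1 * ((b - a : ℕ) : ℝ)| ≤ 21 / 100 := by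
  have hab := h.hab
  have ha := a_large h hb
  have hG := UIL.Gf_sum a b hab.le
  rw [real_eq h] at hG
  unfold UIL.Gf at hG
  obtain ⟨q, hq⟩ : ∃ q : ℝ, q = 2 * (a : ℝ) + 1 := ⟨_, rfl⟩
  obtain ⟨p, hp⟩ : ∃ p : ℝ, p = 2 * (b : ℝ) + 1 := ⟨_, rfl⟩
  rw [← hq, ← hp] at hG
  have hqa : 111 ≤ q := by
    have : (55 : ℝ) ≤ a := by exact_mod_cast ha
    rw [hq]; linarith
  have hpq : q < p := by
    have : (a : ℝ) < b := by exact_mod_cast hab
    rw [hq, hp]; linarith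
  have hq0 : 0 < q := by linarith
  have hp0 : 0 < p := by linarith
  have hm0 : (0 : ℝ) < m := by exact_mod_cast h.hm
  have hinv : 1 / (m : ℝ) ≤ 1 / q ^ 4 := by
    apply one_div_le_one_div_of_le (by positivity)
    have h1 : (10 : ℝ) ^ 4 * p ^ 4 ≤ m := by rw [hp]; exact_mod_cast hm
    have h2 : q ^ 4 ≤ p ^ 4 := pow_le_pow_left₀ hq0.le hpq.le 4
    have h3 : 0 < p ^ 4 := by positivity
    linarith
  have hinv0 : 0 < 1 / (m : ℝ) := by positivity
  -- the exponent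
  obtain ⟨η, hη⟩ : ∃ η : ℝ, η = Real.log p - Real.log q - 1 := ⟨_, rfl⟩
  obtain ⟨Z, hZ⟩ : ∃ Z : ℝ, Z = q ^ 2 * η := ⟨_, rfl⟩
  obtain ⟨r, hr⟩ : ∃ r : ℝ, r = p / q := ⟨_, rfl⟩
  obtain ⟨w, hw⟩ : ∃ w : ℝ, w = 1 / q ^ 2 := ⟨_, rfl⟩
  have hw0 : 0 < w := by rw [hw]; positivity
  have hw1 : w ≤ 1 / 12321 := by
    rw [hw]
    apply one_div_le_one_div_of_le (by norm_num)
    nlinarith
  have hr1 : 1 < r := by rw [hr, one_lt_div hq0]; exact hpq
  have hr0 : 0 < r := by linarith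
  have hpr : p = q * r := by rw [hr]; field_simp
  have e1 : 1 / (6 * p ^ 2) = w / 6 * (1 / r ^ 2) := by rw [hpr, hw]; field_simp
  have e2 : 1 / (6 * q ^ 2) = w / 6 := by rw [hw]; field_simp
  have e3 : 1 / q ^ 4 = w ^ 2 := by rw [hw]; field_simp
  have e4 : 0 ≤ 1 / p ^ 4 := by positivity
  have hηZ : η = w * Z := by rw [hZ, hw]; field_simp
  rw [abs_le, e1, e2] at hG
  obtain ⟨g1, g2⟩ := hG
  rw [e3] at g1 g2 hinv
  have zu : w * Z ≤ w * ((1 - 1 / r ^ 2) / 6 + 4 * w) := by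
    rw [← hηZ, hη]
    have : w * ((1 - 1 / r ^ 2) / 6 + 4 * w) = w / 6 - w / 6 * (1 / r ^ 2) + 4 * w ^ 2 := by ring
    rw [this]
    linarith
  have zl : w * ((1 - 1 / r ^ 2) / 6 - 5 * w) ≤ w * Z := by
    rw [← hηZ, hη]
    have : w * ((1 - 1 / r ^ 2) / 6 - 5 * w) = w / 6 - w / 6 * (1 / r ^ 2) - 5 * w ^ 2 := by ring
    rw [this]
    linarith
  have zu' := le_of_mul_le_mul_left zu hw0
  have zl' := le_of_mul_le_mul_left zl hw0
  have hir : 0 < 1 / r ^ 2 := by positivity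
  have hir1 : 1 / r ^ 2 ≤ 1 := by
    rw [div_le_one (by positivity)]
    nlinarith
  have z1 : Z ≤ 168 / 1000 := by linarith
  have z2 : -(1 / 1000) ≤ Z := by linarith
  have wz1 := mul_le_mul_of_nonneg_left z1 hw0.le
  have wz2 := mul_le_mul_of_nonneg_left z2 hw0.le
  have η1 : η ≤ 1 / 50000 := by
    rw [hηZ]; linarith
  have η2 : -(1 / 50000) ≤ η := by
    rw [hηZ]; linarith
  -- the ratio
  have hre : r = Real.exp 1 * Real.exp η := by
    rw [← Real.exp_add, hη]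
    have : 1 + (Real.log p - Real.log q - 1) = Real.log (p / q) := by
      rw [Real.log_div hp0.ne' hq0.ne']; ring
    rw [this, Real.exp_log (by positivity), hr]
  have ex1 := Real.add_one_le_exp η
  have ex2 := Real.abs_exp_sub_one_sub_id_le (x := η) (by rw [abs_le]; constructor <;> linarith)
  have ex3 := (abs_le.1 ex2).2
  have he1 := Real.exp_one_gt_d9
  have he2 := Real.exp_one_lt_d9
  obtain ⟨e, he⟩ : ∃ e : ℝ, e = Real.exp 1 := ⟨_, rfl⟩
  rw [← he] at he1 he2 hre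
  have hη2 : η ^ 2 ≤ 1 / 50000 := by
    have h1 : |η| ≤ 1 / 50000 := abs_le.2 ⟨by linarith, η1⟩
    have h2 : |η| ^ 2 ≤ (1 / 50000) ^ 2 := pow_le_pow_left₀ (abs_nonneg _) h1 2
    rw [sq_abs] at h2
    norm_num at h2 ⊢
    linarith
  have he0 : 0 < e := by linarith
  have ex4 : 49999 / 50000 ≤ Real.exp η := by linarith
  have ex5 : Real.exp η ≤ 25001 / 25000 := by linarith
  have r1 : 2718 / 1000 ≤ r := by
    rw [hre]
    have h1 := mul_le_mul_of_nonneg_left ex4 he0.le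
    linarith
  have r2 : r ≤ 27185 / 10000 := by
    rw [hre]
    have h1 := mul_le_mul_of_nonneg_left ex5 he0.le
    linarith
  have rr1 : (2718 / 1000 : ℝ) ^ 2 ≤ r ^ 2 := pow_le_pow_left₀ (by norm_num) r1 2
  have rr2 : r ^ 2 ≤ (27185 / 10000 : ℝ) ^ 2 := pow_le_pow_left₀ hr0.le r2 2
  norm_num at rr1 rr2
  have s1 : 1 / r ^ 2 ≤ 1354 / 10000 := by
    rw [div_le_iff₀ (by positivity)]; linarith
  have s2 : 1353 / 10000 ≤ 1 / r ^ 2 := by
    rw [le_div_iff₀ (by positivity)]; linarith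
  have z3 : Z ≤ 1446 / 10000 := by linarith
  have z4 : 1436 / 10000 ≤ Z := by linarith
  have hZ0 : 0 < Z := by linarith
  have hη0 : 0 < η := by rw [hηZ]; positivity
  -- the product
  obtain ⟨x, hx⟩ : ∃ x : ℝ, x = p - e * q := ⟨_, rfl⟩
  have x1 : e * q * η ≤ x := by
    rw [hx, hpr, hre]
    have := mul_le_mul_of_nonneg_left ex1 (mul_pos he0 hq0).le
    linarith
  have x2 : x ≤ e * q * (η + η ^ 2) := by
    rw [hx, hpr, hre]
    have := mul_le_mul_of_nonneg_left ex3 (mul_pos he0 hq0).le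
    linarith
  have hx0 : 0 < x := lt_of_lt_of_le (by positivity) x1
  have qx1 : e * Z ≤ q * x := by
    have := mul_le_mul_of_nonneg_left x1 hq0.le
    rw [hZ]; linarith
  have qx2 : q * x ≤ e * (Z + Z / 10000) := by
    have := mul_le_mul_of_nonneg_left x2 hq0.le
    have h2 : q * (e * q * (η + η ^ 2)) = e * (Z + Z * η) := by rw [hZ]; ring
    rw [h2] at this
    refine this.trans ?_
    have h3 : Z * η ≤ Z / 10000 := by
      have := mul_le_mul_of_nonneg_left η1 hZ0.le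
      linarith
    exact mul_le_mul_of_nonneg_left (by linarith) he0.le
  have hes : 0 < Real.exp (1 : ℕ) - 1 := exp_pos_sub (Or.inl rfl)
  have hV : (((b - a : ℕ) : ℝ)) = (p - q) / 2 := by
    rw [Nat.cast_sub hab.le, hp, hq]; ring
  have hU : ((a + b + 1 : ℕ) : ℝ) = (p + q) / 2 := by
    rw [hp, hq]; push_cast; ring
  have he' : Real.exp ((1 : ℕ) : ℝ) = e := by rw [he]; norm_num
  rw [he'] at hes
  have hE : ((a + b + 1 : ℕ) : ℝ) - hh 1 * ((b - a : ℕ) : ℝ) = -x / (e - 1) := by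
    rw [hU, hV, hx]
    unfold hh
    rw [he']
    field_simp
    ring
  have hk : ((b - a : ℕ) : ℝ) * |((a + b + 1 : ℕ) : ℝ) - hh 1 * ((b - a : ℕ) : ℝ)| = q * x / 2 + x ^ 2 / (2 * (e - 1)) := by
    rw [hE, hV, abs_div, abs_neg, abs_of_pos hes, abs_of_pos hx0]
    have : p = e * q + x := by rw [hx]; ring
    rw [this]
    field_simp
    ring
  rw [hk]
  have hx3 : 0 ≤ x ^ 2 / (2 * (e - 1)) := by positivity
  have eZ1 : 2718 / 1000 * (1436 / 10000) ≤ e * Z := mul_le_mul (by linarith) z4 (by norm_num) he0.le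
  have eZ2 : e * (Z + Z / 10000) ≤ 2719 / 1000 * (1447 / 10000) := mul_le_mul (by linarith) (by linarith) (by linarith) (by norm_num)
  have hx4 : x ^ 2 / (2 * (e - 1)) ≤ 1 / 1000 := by
    rw [div_le_iff₀ (by linarith)]
    have h1 : 111 * x ≤ q * x := mul_le_mul_of_nonneg_right hqa hx0.le
    have h2 : x ≤ 1 / 100 := by norm_num at eZ2; linarith
    have h3 : x ^ 2 ≤ (1 / 100) ^ 2 := pow_le_pow_left₀ hx0.le h2 2
    norm_num at h3
    linarith
  norm_num at eZ1 eZ2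
  constructor
  · linarith
  · linarith

end Pool.Agent.VO5
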