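import Pool.Agent.P30.UnitIntervalB

/-!
The solutions of `hs a b + 1 / m = 1` with `b < 149` (helper5).
-/

namespace Pool.Agent.VO5

open Pool.Agent.P30.UnitInterval

/-- the least common multiple of `1, …, 148` -/
def L : ℕ := (List.range 148).foldl (fun x i => Nat.lcm x (i + 1)) 1

/-- walk down from `b`: `r` is `L - ∑ L / n` over the numbers `n` already passed, `k` the next one -/
def walk (L b : ℕ) : ℕ → ℕ → Bool
  | 0, _ => true
  | (k + 1), r =>
    if L / (k + 1) < r then
      (if (r - L / (k + 1)) ∣ L then (b == 2 && k == 1) || (b == 3 && k == 1) || (b == 6 && k == 2) else true) &&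
        walk L b k (r - L / (k + 1))
    else true

def all (L : ℕ) : ℕ → Bool
  | 0 => true
  | (b + 1) => walk L b b L && all L b

set_option maxRecDepth 100000 in
theorem all_true : all L 149 = true := by decide +kernel

theorem all_spec {L : ℕ} : ∀ {n : ℕ}, all L n = true → ∀ b < n, walk L b b L = true
  | 0, _, b, hb => absurd hb (by omega)
  | (n + 1), h, b, hb => by
    simp only [all, Bool.and_eq_true] at h
    rcases Nat.lt_succ_iff_lt_or_eq.1 hb with h1 | h1
    · exact all_spec h.2 b h1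
    · rw [h1]; exact h.1

theorem dvdL : ∀ n, 1 ≤ n → n ≤ 148 → n ∣ L := by
  have h : ∀ n ≤ 148, 1 ≤ n → n ∣ L := by decide +kernel
  intro n h1 h2
  exact h n h2 h1

theorem L_pos : 0 < L := by decide +kernel

theorem sum_step {f : ℕ → ℕ} {k b : ℕ} (h : k < b) :
    ∑ n ∈ Finset.Ioc k b, f n = f (k + 1) + ∑ n ∈ Finset.Ioc (k + 1) b, f n := by
  have e : Finset.Ioc k b = insert (k + 1) (Finset.Ioc (k + 1) b) := by
    ext x
    simp only [Finset.mem_Ioc, Finset.mem_insert]
    omega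
  rw [e, Finset.sum_insert (by simp)]

theorem walk_spec {L b : ℕ} : ∀ {k r : ℕ}, k ≤ b → walk L b k r = true → r + ∑ n ∈ Finset.Ioc k b, L / n = L →
    ∀ a < k, ∀ r', 0 < r' → r' + ∑ n ∈ Finset.Ioc a b, L / n = L → r' ∣ L →
      (b = 2 ∧ a = 1) ∨ (b = 3 ∧ a = 1) ∨ (b = 6 ∧ a = 2)
  | 0, _, _, _, _, a, ha, _, _, _, _ => absurd ha (by omega)
  | (k + 1), r, hk, hw, hr, a, ha, r', h0, hr', hd => by
    have hs : ∑ n ∈ Finset.Ioc k b, L / n = L / (k + 1) + ∑ n ∈ Finset.Ioc (k + 1) b, L / n :=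
      sum_step (f := fun n => L / n) (by omega : k < b)
    have hmono : ∑ n ∈ Finset.Ioc k b, L / n ≤ ∑ n ∈ Finset.Ioc a b, L / n := by
      apply Finset.sum_le_sum_of_subset
      intro x hx
      simp only [Finset.mem_Ioc] at hx ⊢
      omega
    have hlt : L / (k + 1) < r := by omega
    rw [walk, if_pos hlt, Bool.and_eq_true] at hw
    obtain ⟨w1, w2⟩ := hw
    rcases Nat.lt_succ_iff_lt_or_eq.1 ha with h1 | h1
    · exact walk_spec (by omega) w2 (by omega) a h1 r' h0 hr' hd
    · subst h1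
      have he : r - L / (a + 1) = r' := by omega
      rw [he, if_pos hd] at w1
      simp only [Bool.or_eq_true, Bool.and_eq_true, beq_iff_eq] at w1
      tauto

theorem small_b {a b m : ℕ} (h : Sol a b m 1) (hb : b < 149) :
    (b = 2 ∧ a = 1) ∨ (b = 3 ∧ a = 1) ∨ (b = 6 ∧ a = 2) := by
  have hm := h.hm
  have hab := h.hab
  have hL : (0 : ℚ) < (L : ℚ) := by exact_mod_cast L_pos
  have hm0 : (0 : ℚ) < m := by exact_mod_cast hm
  have hsum : ((∑ n ∈ Finset.Ioc a b, L / n : ℕ) : ℚ) = L * hs a b := by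
    unfold hs
    rw [Finset.mul_sum, Nat.cast_sum]
    apply Finset.sum_congr rfl
    intro n hn
    rw [Finset.mem_Ioc] at hn
    have hd := dvdL n (by omega) (by omega)
    rw [Nat.cast_div hd (by exact_mod_cast (by omega : n ≠ 0))]
    ring
  have heq := h.eq
  obtain ⟨S, hS⟩ : ∃ S : ℕ, S = ∑ n ∈ Finset.Ioc a b, L / n := ⟨_, rfl⟩
  rw [← hS] at hsum
  have h1 : (S : ℚ) + L / m = L := by
    rw [hsum]
    have : hs a b = 1 - 1 / m := by push_cast at heq; linarith
    rw [this]; ring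
  have h2 : (S : ℚ) < L := by
    have : 0 < (L : ℚ) / m := div_pos hL hm0
    linarith
  have h3 : S < L := by exact_mod_cast h2
  obtain ⟨r, hr⟩ : ∃ r, r = L - S := ⟨_, rfl⟩
  have hrS : r + S = L := by omega
  have h4 : r * m = L := by
    have : (r : ℚ) * m = L := by
      have e : (r : ℚ) = L - S := by
        have : (r : ℚ) + S = L := by exact_mod_cast hrS
        linarith
      rw [e]
      have : (L : ℚ) - S = L / m := by linarith
      rw [this]; field_simp
    exact_mod_cast this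
  have w := all_spec all_true b hb
  have r0 : 0 < r := by rw [hr]; exact Nat.sub_pos_of_lt h3
  rw [hS] at hrS
  have hd : r ∣ L := ⟨m, h4.symm⟩
  generalize L = L' at *
  have s0 : L' + ∑ n ∈ Finset.Ioc b b, L' / n = L' := by rw [Finset.Ioc_self, Finset.sum_empty, add_zero]
  exact walk_spec (le_refl b) w s0 a hab r r0 hrS hd

theorem small_list {a b m : ℕ} (h : Sol a b m 1) (hb : b < 149) :
    (a = 1 ∧ b = 2 ∧ m = 2) ∨ (a = 1 ∧ b = 3 ∧ m = 6) ∨ (a = 2 ∧ b = 6 ∧ m = 20) := by
  have heq := h.eq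
  have hm0 : (m : ℚ) ≠ 0 := by exact_mod_cast (by have := h.hm; omega : m ≠ 0)
  unfold hs at heq
  rcases small_b h hb with ⟨rfl, rfl⟩ | ⟨rfl, rfl⟩ | ⟨rfl, rfl⟩
  · left
    refine ⟨rfl, rfl, ?_⟩
    have e : ∑ n ∈ Finset.Ioc (1 : ℕ) 2, (1 : ℚ) / (n : ℚ) = 1 / 2 := by
      rw [show Finset.Ioc 1 2 = {2} from by decide]; norm_num
    rw [e] at heq
    have : (m : ℚ) = 2 := by
      field_simp at heq
      push_cast at heq
      linarith
    exact_mod_cast this
  · right; left
    refine ⟨rfl, rfl, ?_⟩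
    have e : ∑ n ∈ Finset.Ioc (1 : ℕ) 3, (1 : ℚ) / (n : ℚ) = 5 / 6 := by
      rw [show Finset.Ioc 1 3 = {2, 3} from by decide]; norm_num
    rw [e] at heq
    have : (m : ℚ) = 6 := by
      field_simp at heq
      push_cast at heq
      linarith
    exact_mod_cast this
  · right; right
    refine ⟨rfl, rfl, ?_⟩
    have e : ∑ n ∈ Finset.Ioc (2 : ℕ) 6, (1 : ℚ) / (n : ℚ) = 19 / 20 := by
      rw [show Finset.Ioc 2 6 = {3, 4, 5, 6} from by decide]; norm_num
    rw [e] at heq
    have : (m : ℚ) = 20 := by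
      field_simp at heq
      push_cast at heq
      linarith
    exact_mod_cast this

theorem small_conv : Sol 1 2 2 1 ∧ Sol 1 3 6 1 ∧ Sol 2 6 20 1 := by
  refine ⟨⟨by norm_num, by norm_num, le_refl 1, ?_⟩, ⟨by norm_num, by norm_num, le_refl 1, ?_⟩,
    ⟨by norm_num, by norm_num, le_refl 1, ?_⟩⟩
  · unfold hs
    rw [show Finset.Ioc 1 2 = {2} from by decide]; norm_num
  · unfold hs
    rw [show Finset.Ioc 1 3 = {2, 3} from by decide]; norm_num
  · unfold hs
    rw [show Finset.Ioc 2 6 = {3, 4, 5, 6} from by decide]; norm_num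

end Pool.Agent.VO5
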