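import Pool.Agent.VO5.One

/-!
Level two with an explicit constant: for a solution of value `1` with `149 ≤ b` and `(a + b + 1) (b - a) = 2 k` the product
`Y |X - coth 1 Y|` with `Y = 3 k`, `X = 3 a ^ 2 + 3 a + 1 + 3 k` is at most `0.42` (`step` by helper42, the rest by helper5).
-/

namespace Pool.Agent.VO5

open Pool.Agent.P30.UnitInterval Pool.Agent.UCF

theorem step {x : ℝ} (hx : 10 ≤ x) :
    -(1 / 5) * (1 / (2 * x - 1) ^ 4 - 1 / (2 * x + 1) ^ 4) ≤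
      Real.log (3 * x ^ 2 + 3 * x + 1) - Real.log (3 * x ^ 2 - 3 * x + 1) - 2 / x ∧
    Real.log (3 * x ^ 2 + 3 * x + 1) - Real.log (3 * x ^ 2 - 3 * x + 1) - 2 / x ≤
      -(3 / 20) * (1 / (2 * x - 1) ^ 4 - 1 / (2 * x + 1) ^ 4) := by
  have hx0 : 0 < x := by linarith
  obtain ⟨w, hw⟩ : ∃ w : ℝ, w = 1 / x := ⟨_, rfl⟩
  have hw0 : 0 < w := by rw [hw]; positivity
  have hw1 : w ≤ 1 / 10 := by
    rw [hw, div_le_div_iff₀ hx0 (by norm_num)]
    linarith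
  have hxw : x = 1 / w := by rw [hw]; field_simp
  obtain ⟨t, ht⟩ : ∃ t : ℝ, t = 3 * w / (3 + w ^ 2) := ⟨_, rfl⟩
  have hD : 0 < 3 + w ^ 2 := by positivity
  have ht0 : 0 < t := by rw [ht]; positivity
  have htw : t ≤ w := by
    rw [ht, div_le_iff₀ hD]
    nlinarith [pow_pos hw0 3]
  have ht1 : t ≤ 1 / 10 := htw.trans hw1
  -- the logarithm
  have h1 := Real.abs_log_sub_add_sum_range_le (x := t) (by rw [abs_of_pos ht0]; linarith) 8
  have h2 := Real.abs_log_sub_add_sum_range_le (x := -t)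
    (by rw [abs_neg, abs_of_pos ht0]; linarith) 8
  rw [abs_neg] at h2
  rw [abs_of_pos ht0] at h1 h2
  have h3 : t ^ (8 + 1) / (1 - t) ≤ 10 / 9 * w ^ 9 := by
    rw [div_le_iff₀ (by linarith)]
    have h5 : t ^ 9 ≤ w ^ 9 := pow_le_pow_left₀ ht0.le htw 9
    have h6 : t ^ (8 + 1) = t ^ 9 := rfl
    rw [h6]
    have h7 : 0 < w ^ 9 := by positivity
    nlinarith
  have h1' := h1.trans h3
  have h2' := h2.trans h3
  simp only [Finset.sum_range_succ, Finset.sum_range_zero] at h1' h2'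
  norm_num at h1' h2'
  have e1 : Real.log (3 * x ^ 2 + 3 * x + 1) - Real.log (3 * x ^ 2 - 3 * x + 1) =
      Real.log (1 + t) - Real.log (1 - t) := by
    have e2 : 3 * x ^ 2 + 3 * x + 1 = (3 * x ^ 2 + 1) * (1 + t) := by
      rw [ht, hw]; field_simp; ring
    have e3 : 3 * x ^ 2 - 3 * x + 1 = (3 * x ^ 2 + 1) * (1 - t) := by
      rw [ht, hw]; field_simp; ring
    have h0 : (3 * x ^ 2 + 1) ≠ 0 := by positivity
    rw [e2, e3, Real.log_mul h0 (by positivity), Real.log_mul h0 (by linarith)]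
    ring
  have e4 : 2 / x = 2 * w := by rw [hw]; ring
  -- the potential
  have e5 : 1 / (2 * x - 1) ^ 4 - 1 / (2 * x + 1) ^ 4 =
      w ^ 5 * ((64 + 16 * w ^ 2) / (4 - w ^ 2) ^ 4) := by
    have h4 : 2 - w ≠ 0 := by linarith
    have h5 : 2 + w ≠ 0 := by linarith
    have h6 : 4 - w ^ 2 ≠ 0 := by nlinarith
    have h7 : 2 * x - 1 = (2 - w) / w := by rw [hxw]; field_simp
    have h8 : 2 * x + 1 = (2 + w) / w := by rw [hxw]; field_simp
    have h9 : 4 - w ^ 2 = (2 - w) * (2 + w) := by ring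
    rw [h7, h8, h9]
    field_simp
    ring
  obtain ⟨v, hv⟩ : ∃ v : ℝ, v = w ^ 2 := ⟨_, rfl⟩
  have hv0 : 0 < v := by rw [hv]; positivity
  have hv1 : v ≤ 1 / 100 := by rw [hv]; nlinarith
  have hq1 : 1 / 4 ≤ (64 + 16 * w ^ 2) / (4 - w ^ 2) ^ 4 := by
    rw [← hv, div_le_div_iff₀ (by norm_num) (by have : 0 < 4 - v := by linarith
                                                positivity)]
    have : (4 - v) ^ 4 ≤ 4 ^ 4 := pow_le_pow_left₀ (by linarith) (by linarith) 4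
    linarith
  have hq2 : (64 + 16 * w ^ 2) / (4 - w ^ 2) ^ 4 ≤ 13 / 50 := by
    rw [← hv, div_le_div_iff₀ (by have : 0 < 4 - v := by linarith
                                  positivity) (by norm_num)]
    have : (399 / 100 : ℝ) ^ 4 ≤ (4 - v) ^ 4 := pow_le_pow_left₀ (by norm_num) (by linarith) 4
    norm_num at this
    linarith
  -- the polynomial part
  have hg : t + t ^ 3 / 3 + t ^ 5 / 5 - w = w * (3 / (3 + v) + 9 * v / (3 + v) ^ 3 +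
      243 / 5 * v ^ 2 / (3 + v) ^ 5 - 1) := by
    rw [ht, hv]; field_simp; ring
  have hDv : 0 < 3 + v := by linarith
  have hup : 3 / (3 + v) + 9 * v / (3 + v) ^ 3 + 243 / 5 * v ^ 2 / (3 + v) ^ 5 - 1 ≤
      -(1 / 45) * v ^ 2 := by
    have e : 3 / (3 + v) + 9 * v / (3 + v) ^ 3 + 243 / 5 * v ^ 2 / (3 + v) ^ 5 - 1 -
        -(1 / 45) * v ^ 2 = (3 * (3 + v) ^ 4 + 9 * v * (3 + v) ^ 2 + 243 / 5 * v ^ 2 -
          (3 + v) ^ 5 + 1 / 45 * v ^ 2 * (3 + v) ^ 5) / (3 + v) ^ 5 := by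
      field_simp
      ring
    have e' : (3 * (3 + v) ^ 4 + 9 * v * (3 + v) ^ 2 + 243 / 5 * v ^ 2 -
          (3 + v) ^ 5 + 1 / 45 * v ^ 2 * (3 + v) ^ 5) / (3 + v) ^ 5 ≤ 0 := by
      apply div_nonpos_of_nonpos_of_nonneg _ (by positivity)
      have e'' : 3 * (3 + v) ^ 4 + 9 * v * (3 + v) ^ 2 + 243 / 5 * v ^ 2 -
          (3 + v) ^ 5 + 1 / 45 * v ^ 2 * (3 + v) ^ 5 =
          v ^ 3 * (-36 - 6 * v + v ^ 2 + v ^ 3 / 3 + v ^ 4 / 45) := by
        ring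
      rw [e'']
      have h5 : 0 < v ^ 3 := by positivity
      have h6 : v ^ 2 ≤ 1 := by nlinarith
      have h7 : v ^ 3 ≤ 1 := pow_le_one₀ hv0.le (by linarith)
      have h8 : v ^ 4 ≤ 1 := pow_le_one₀ hv0.le (by linarith)
      exact mul_nonpos_of_nonneg_of_nonpos h5.le (by linarith)
    linarith
  have hlow : -(1 / 45) * v ^ 2 - 1 / 6 * v ^ 3 ≤
      3 / (3 + v) + 9 * v / (3 + v) ^ 3 + 243 / 5 * v ^ 2 / (3 + v) ^ 5 - 1 := by
    have e : 3 / (3 + v) + 9 * v / (3 + v) ^ 3 + 243 / 5 * v ^ 2 / (3 + v) ^ 5 - 1 -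
        (-(1 / 45) * v ^ 2 - 1 / 6 * v ^ 3) =
        (v ^ 3 * (9 / 2 + 123 / 2 * v + 46 * v ^ 2 + 46 / 3 * v ^ 3 + 227 / 90 * v ^ 4 +
          1 / 6 * v ^ 5)) / (3 + v) ^ 5 := by
      field_simp
      ring
    have e' : 0 ≤ (v ^ 3 * (9 / 2 + 123 / 2 * v + 46 * v ^ 2 + 46 / 3 * v ^ 3 +
        227 / 90 * v ^ 4 + 1 / 6 * v ^ 5)) / (3 + v) ^ 5 := by positivity
    linarith
  have hw5 : 0 < w ^ 5 := by positivity
  have hU := mul_le_mul_of_nonneg_left hup hw0.le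
  have hL := mul_le_mul_of_nonneg_left hlow hw0.le
  rw [← hg] at hU hL
  have eU : w * (-(1 / 45) * v ^ 2) = -(1 / 45) * w ^ 5 := by rw [hv]; ring
  have eL : w * (-(1 / 45) * v ^ 2 - 1 / 6 * v ^ 3) = -(1 / 45) * w ^ 5 - 1 / 6 * w ^ 7 := by
    rw [hv]; ring
  rw [eU] at hU
  rw [eL] at hL
  have h7 : w ^ 7 ≤ 1 / 100 * w ^ 5 := by
    have : w ^ 7 = v * w ^ 5 := by rw [hv]; ring
    rw [this]
    exact mul_le_mul_of_nonneg_right hv1 hw5.le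
  have h9 : w ^ 9 ≤ 1 / 10000 * w ^ 5 := by
    have : w ^ 9 = v ^ 2 * w ^ 5 := by rw [hv]; ring
    rw [this]
    have h10 : v ^ 2 ≤ (1 / 100) ^ 2 := pow_le_pow_left₀ hv0.le hv1 2
    norm_num at h10
    exact mul_le_mul_of_nonneg_right h10 hw5.le
  have ht7 : t ^ 7 ≤ w ^ 7 := pow_le_pow_left₀ ht0.le htw 7
  have ht7' : 0 < t ^ 7 := by positivity
  have hp1 := mul_le_mul_of_nonneg_left hq1 hw5.le
  have hp2 := mul_le_mul_of_nonneg_left hq2 hw5.le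
  rw [abs_le] at h1' h2'
  obtain ⟨a1, a2⟩ := h1'
  obtain ⟨b1, b2⟩ := h2'
  have n3 : (-t) ^ 3 = - t ^ 3 := by ring
  have n5 : (-t) ^ 5 = - t ^ 5 := by ring
  have n7 : (-t) ^ 7 = - t ^ 7 := by ring
  rw [n3, n5, n7] at b1 b2
  rw [e1, e4, e5]
  constructor <;> linarith

theorem sum_two {a b : ℕ} (ha : 9 ≤ a) (hab : a ≤ b) :
    -(1 / 5) * (1 / (2 * (a : ℝ) + 1) ^ 4 - 1 / (2 * (b : ℝ) + 1) ^ 4) ≤
      Real.log (3 * (b : ℝ) ^ 2 + 3 * b + 1) - Real.log (3 * (a : ℝ) ^ 2 + 3 * a + 1) - 2 * ((hs a b : ℚ) : ℝ) ∧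
    Real.log (3 * (b : ℝ) ^ 2 + 3 * b + 1) - Real.log (3 * (a : ℝ) ^ 2 + 3 * a + 1) - 2 * ((hs a b : ℚ) : ℝ) ≤ 0 := by
  induction b, hab using Nat.le_induction with
  | base =>
    have : hs a a = 0 := by simp [hs]
    rw [this]
    simp
  | succ b hab ih =>
    have h1 : hs a (b + 1) = hs a b + 1 / ((b : ℚ) + 1) := by
      rw [← hs_add hab (Nat.le_succ b)]
      have : hs b (b + 1) = 1 / ((b : ℚ) + 1) := by
        unfold hs
        rw [Nat.Ioc_succ_singleton, Finset.sum_singleton]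
        push_cast
        rfl
      rw [this]
    rw [h1]
    have hb9 : (9 : ℝ) ≤ b := by exact_mod_cast le_trans ha hab
    obtain ⟨s1, s2⟩ := step (x := (b : ℝ) + 1) (by linarith)
    have e1 : 3 * ((b : ℝ) + 1) ^ 2 - 3 * ((b : ℝ) + 1) + 1 = 3 * (b : ℝ) ^ 2 + 3 * b + 1 := by ring
    have e2 : 2 * ((b : ℝ) + 1) - 1 = 2 * (b : ℝ) + 1 := by ring
    rw [e1, e2] at s1 s2
    have e3 : 2 / ((b : ℝ) + 1) = 2 * (1 / ((b : ℝ) + 1)) := by ring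
    rw [e3] at s1 s2
    have h2 : 1 / (2 * ((b : ℝ) + 1) + 1) ^ 4 ≤ 1 / (2 * (b : ℝ) + 1) ^ 4 := by
      apply one_div_le_one_div_of_le (by positivity)
      exact pow_le_pow_left₀ (by positivity) (by linarith) 4
    push_cast
    obtain ⟨i1, i2⟩ := ih
    constructor <;> linarith

theorem level_two {a b m k : ℕ} (h : Sol a b m 1) (hb : 149 ≤ b) (hm : 10 ^ 4 * (2 * b + 1) ^ 4 ≤ m)
    (hk : (a + b + 1) * (b - a) = 2 * k) :
    ((3 * k : ℕ) : ℝ) * |((3 * a ^ 2 + 3 * a + 1 + 3 * k : ℕ) : ℝ) - hh 2 * ((3 * k : ℕ) : ℝ)| ≤ 42 / 100 := by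
  have hab := h.hab
  have ha := a_large h hb
  obtain ⟨t1, t2⟩ := sum_two (by omega : 9 ≤ a) hab.le
  rw [real_eq h] at t1 t2
  obtain ⟨x, hx⟩ : ∃ x : ℝ, x = 3 * (b : ℝ) ^ 2 + 3 * b + 1 := ⟨_, rfl⟩
  obtain ⟨y, hy⟩ : ∃ y : ℝ, y = 3 * (a : ℝ) ^ 2 + 3 * a + 1 := ⟨_, rfl⟩
  obtain ⟨q, hq⟩ : ∃ q : ℝ, q = 2 * (a : ℝ) + 1 := ⟨_, rfl⟩
  obtain ⟨p, hp⟩ : ∃ p : ℝ, p = 2 * (b : ℝ) + 1 := ⟨_, rfl⟩
  have haR : (55 : ℝ) ≤ a := by exact_mod_cast ha
  have hbR : (149 : ℝ) ≤ b := by exact_mod_cast hb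
  have habR : (a : ℝ) < b := by exact_mod_cast hab
  have hq111 : 111 ≤ q := by rw [hq]; linarith
  have hq0 : 0 < q := by linarith
  have hp0 : 0 < p := by rw [hp]; linarith
  have hx0 : 0 < x := by rw [hx]; positivity
  have hy0 : 0 < y := by rw [hy]; positivity
  rw [← hx, ← hy, ← hq, ← hp] at t1
  rw [← hx, ← hy] at t2
  have hm0 : (0 : ℝ) < m := by exact_mod_cast h.hm
  have hinv : 1 / (m : ℝ) ≤ 1 / (10 ^ 4 * p ^ 4) := by
    apply one_div_le_one_div_of_le (by positivity)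
    rw [hp]; exact_mod_cast hm
  have hinv0 : 0 < 1 / (m : ℝ) := by positivity
  have hp4 : 1 / (10 ^ 4 * p ^ 4) = 1 / 10 ^ 4 * (1 / p ^ 4) := by field_simp
  rw [hp4] at hinv
  have hp5 : 0 < 1 / p ^ 4 := by positivity
  obtain ⟨z, hz⟩ : ∃ z : ℝ, z = 2 - (Real.log x - Real.log y) := ⟨_, rfl⟩
  have z0 : 0 ≤ z := by rw [hz]; linarith
  have z1 : z ≤ 1 / 5 * (1 / q ^ 4) := by
    have h10 : 1 / (10 : ℝ) ^ 4 * (1 / p ^ 4) ≤ 1 / 10 * (1 / p ^ 4) :=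
      mul_le_mul_of_nonneg_right (by norm_num) hp5.le
    rw [hz]; linarith
  -- the ratio
  obtain ⟨E, hE⟩ : ∃ E : ℝ, E = Real.exp 2 := ⟨_, rfl⟩
  have hEe : E = Real.exp 1 ^ 2 := by rw [hE, ← Real.exp_nat_mul]; norm_num
  have he1 := Real.exp_one_gt_d9
  have he2 := Real.exp_one_lt_d9
  have E1 : 7 ≤ E := by rw [hEe]; nlinarith
  have E2 : E ≤ 739 / 100 := by rw [hEe]; nlinarith
  have hxe : x = y * (E * Real.exp (-z)) := by
    rw [hE, ← Real.exp_add]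
    have : 2 + -z = Real.log (x / y) := by
      rw [hz, Real.log_div hx0.ne' hy0.ne']; ring
    rw [this, Real.exp_log (by positivity)]
    field_simp
  have ez1 : 1 - z ≤ Real.exp (-z) := by
    have := Real.add_one_le_exp (-z)
    linarith
  have ez2 : Real.exp (-z) ≤ 1 := Real.exp_le_one_iff.2 (by linarith)
  have hyE : 0 < y * E := by positivity
  have w1 : x ≤ E * y := by
    rw [hxe]
    have := mul_le_mul_of_nonneg_left ez2 hyE.le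
    linarith
  have w2 : E * y - x ≤ E * y * z := by
    rw [hxe]
    have := mul_le_mul_of_nonneg_left ez1 hyE.le
    linarith
  have w3 : y ≤ x := by
    rw [hx, hy]; nlinarith
  have hY : ((3 * k : ℕ) : ℝ) = (x - y) / 2 := by
    have e1 : (((a + b + 1) * (b - a) : ℕ) : ℝ) = ((2 * k : ℕ) : ℝ) := by rw [hk]
    rw [Nat.cast_mul, Nat.cast_sub hab.le] at e1
    push_cast at e1 ⊢
    rw [hx, hy]
    linarith
  have hX : ((3 * a ^ 2 + 3 * a + 1 + 3 * k : ℕ) : ℝ) = (x + y) / 2 := by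
    have : ((3 * a ^ 2 + 3 * a + 1 + 3 * k : ℕ) : ℝ) = (3 * (a : ℝ) ^ 2 + 3 * a + 1) + ((3 * k : ℕ) : ℝ) := by push_cast; ring
    rw [this, hY, ← hy]; ring
  have hE' : Real.exp ((2 : ℕ) : ℝ) = E := by rw [hE]; norm_num
  have hdiff : ((3 * a ^ 2 + 3 * a + 1 + 3 * k : ℕ) : ℝ) - hh 2 * ((3 * k : ℕ) : ℝ) = (E * y - x) / (E - 1) := by
    rw [hX, hY]
    unfold hh
    rw [hE']
    have : E - 1 ≠ 0 := by linarith
    field_simp
    ring
  have hE1 : 0 < E - 1 := by linarith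
  rw [hdiff, hY, abs_of_nonneg (div_nonneg (by linarith) hE1.le)]
  have k1 : (x - y) / 2 * ((E * y - x) / (E - 1)) ≤ E * y ^ 2 * z / 2 := by
    have a1 : (x - y) * (E * y - x) ≤ ((E - 1) * y) * (E * y * z) :=
      mul_le_mul (by linarith) w2 (by linarith) (by positivity)
    have a2 : (x - y) / 2 * ((E * y - x) / (E - 1)) = (x - y) * (E * y - x) / (2 * (E - 1)) := by
      field_simp
    rw [a2, div_le_iff₀ (by positivity)]
    linarith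
  refine k1.trans ?_
  have y1 : y ≤ 7501 / 10000 * q ^ 2 := by
    have : y = (3 * q ^ 2 + 1) / 4 := by rw [hy, hq]; ring
    rw [this]
    nlinarith
  have y2 : y ^ 2 ≤ (7501 / 10000 * q ^ 2) ^ 2 := pow_le_pow_left₀ hy0.le y1 2
  have y3 : y ^ 2 * z ≤ (7501 / 10000 * q ^ 2) ^ 2 * (1 / 5 * (1 / q ^ 4)) := mul_le_mul y2 z1 z0 (by positivity)
  have y4 : (7501 / 10000 * q ^ 2) ^ 2 * (1 / 5 * (1 / q ^ 4)) = (7501 / 10000) ^ 2 / 5 := by field_simp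
  rw [y4] at y3
  have y5 : 0 ≤ y ^ 2 * z := by positivity
  have y6 : E * (y ^ 2 * z) ≤ 739 / 100 * ((7501 / 10000) ^ 2 / 5) := mul_le_mul E2 y3 y5 (by norm_num)
  norm_num at y6
  linarith

end Pool.Agent.VO5
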