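import Pool.Agent.VO5.Leg
import Pool.Agent.VO5.Small
import Pool.Agent.VO5.One
import Pool.Agent.VO5.Two
import Pool.Agent.VO5.Large

/-!
The complete list of the solutions of value `1` (helper5, after an idea of helper99).
-/

namespace Pool.Agent.VO5

open Pool.Agent.P30.UnitInterval Pool.Agent.UCF

theorem hh_one : 2.16 ≤ hh 1 ∧ hh 1 ≤ 2.17 := by
  have he1 := Real.exp_one_gt_d9
  have he2 := Real.exp_one_lt_d9
  unfold hh
  have e : Real.exp ((1 : ℕ) : ℝ) = Real.exp 1 := by norm_num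
  rw [e]
  constructor
  · rw [le_div_iff₀ (by linarith)]; linarith
  · rw [div_le_iff₀ (by linarith)]; linarith

theorem P_bounds {k : ℕ} (hk : 1 ≤ k) : 2.15 * ((conv 1 (k + 1)).2 : ℝ) ≤ ((conv 1 (k + 1)).1 : ℝ) ∧
    ((conv 1 (k + 1)).1 : ℝ) ≤ 2.18 * ((conv 1 (k + 1)).2 : ℝ) := by
  have hs : (1 : ℕ) = 1 ∨ (1 : ℕ) = 2 := Or.inl rfl
  obtain ⟨h1, h2⟩ := hh_one
  have hD := D_abs hs (k + 1)
  have hle := qD_le hs (k + 1)
  have hD0 := D_nonneg (s := 1) (k + 1)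
  have hQ6' : 6 ≤ ((conv 1 (k + 1)).2 : ℝ) := by
    have hm := q_mono hs (by omega : 2 ≤ k + 1)
    have h6 : (conv 1 2).2 = 6 := by norm_num [conv, quot]
    simp only [h6] at hm
    exact_mod_cast hm
  generalize ((conv 1 (k + 1)).2 : ℝ) = Q at *
  generalize ((conv 1 (k + 1)).1 : ℝ) = P at *
  have hk1 : (1 : ℝ) ≤ k := by exact_mod_cast hk
  push_cast at hle
  have hQD : Q * D 1 (k + 1) ≤ 1 / 5 := by
    have h0 : 0 ≤ Q * D 1 (k + 1) := mul_nonneg (by linarith) hD0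
    have h5 : 5 * (Q * D 1 (k + 1)) ≤ (2 * ((k : ℝ) + 1) + 1) * (Q * D 1 (k + 1)) :=
      mul_le_mul_of_nonneg_right (by linarith) h0
    linarith
  have hD1 : D 1 (k + 1) ≤ Q / 180 := by
    have h6 : 6 * D 1 (k + 1) ≤ Q * D 1 (k + 1) := mul_le_mul_of_nonneg_right hQ6' hD0
    linarith
  rw [← hD, abs_le] at hD1
  obtain ⟨d1, d2⟩ := hD1
  have m1 := mul_le_mul_of_nonneg_right h1 (by linarith : 0 ≤ Q)
  have m2 := mul_le_mul_of_nonneg_right h2 (by linarith : 0 ≤ Q)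
  constructor
  · linarith
  · linarith

theorem no_large {a b m : ℕ} (h : Sol a b m 1) (hb : 149 ≤ b) : False := by
  have hm := m_large h hb
  have hab := h.hab
  obtain ⟨k0, hk0⟩ : ∃ k0, (a + b + 1) * (b - a) = 2 * k0 := by
    obtain ⟨c, rfl⟩ : ∃ c, b = a + c := ⟨b - a, by omega⟩
    have e : a + (a + c) + 1 = 2 * a + (c + 1) := by ring
    have e2 : a + c - a = c := by omega
    rw [e, e2]
    rcases Nat.even_or_odd' c with ⟨t, rfl | rfl⟩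
    · exact ⟨(2 * a + (2 * t + 1)) * t, by ring⟩
    · exact ⟨(a + t + 1) * (2 * t + 1), by ring⟩
  have hk1 : 1 ≤ k0 := by
    have : 0 < (a + b + 1) * (b - a) := Nat.mul_pos (by omega) (by omega)
    omega
  obtain ⟨l1, l2⟩ := level_one h hb hm
  have l3 := level_two h hb hm hk0
  obtain ⟨k, d, hd, dU, dV, dl, du⟩ := legendre (s := 1) (Or.inl rfl) (U := a + b + 1) (V := b - a) (by omega)
    (by norm_num at l2 ⊢; linarith)
  obtain ⟨j, d', hd', dX, dY, dl', du'⟩ := legendre (s := 2) (Or.inr rfl) (U := 3 * a ^ 2 + 3 * a + 1 + 3 * k0) (V := 3 * k0)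
    (by omega) (by norm_num at l3 ⊢; linarith)
  have q1 : (quot 1 (k + 1) : ℝ) = 4 * k + 6 := by
    have : quot 1 (k + 1) = 4 * k + 6 := by unfold quot; omega
    rw [this]; push_cast; ring
  have q2 : (quot 2 (j + 1) : ℝ) = 2 * j + 3 := by
    have : quot 2 (j + 1) = 2 * j + 3 := by unfold quot; omega
    rw [this]; push_cast; ring
  rw [q1] at dl du
  rw [q2] at du'
  have hkR : (0 : ℝ) ≤ k := Nat.cast_nonneg k
  have hjR : (0 : ℝ) ≤ j := Nat.cast_nonneg j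
  have b1 : 19 / 100 * (4 * (k : ℝ) + 6) ≤ (d : ℝ) ^ 2 := by
    refine le_trans ?_ dl
    exact mul_le_mul_of_nonneg_right l1 (by positivity)
  have b2 : (d : ℝ) ^ 2 ≤ 21 / 100 * (4 * (k : ℝ) + 7) := by
    refine le_trans du ?_
    have := mul_le_mul_of_nonneg_right l2 (by positivity : 0 ≤ 4 * (k : ℝ) + 6 + 1)
    linarith
  have b3 : (d' : ℝ) ^ 2 ≤ 42 / 100 * (2 * (j : ℝ) + 4) := by
    refine le_trans du' ?_
    have := mul_le_mul_of_nonneg_right l3 (by positivity : 0 ≤ 2 * (j : ℝ) + 3 + 1)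
    linarith
  -- small `k`
  have hk3 : 3 ≤ k := by
    by_contra hc
    push Not at hc
    have n1 : 19 * (4 * k + 6) ≤ 100 * d ^ 2 := by
      have : (19 : ℝ) * (4 * k + 6) ≤ 100 * (d : ℝ) ^ 2 := by linarith
      exact_mod_cast this
    have n2 : 100 * d ^ 2 ≤ 21 * (4 * k + 7) := by
      have : 100 * (d : ℝ) ^ 2 ≤ 21 * (4 * k + 7) := by linarith
      exact_mod_cast this
    have hd2 : d < 2 := by
      by_contra hc2
      push Not at hc2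
      have : 2 * 2 ≤ d * d := Nat.mul_le_mul hc2 hc2
      nlinarith
    have : d = 1 := by omega
    subst this
    omega
  -- the equation of the sizes
  obtain ⟨Q, hQ⟩ : ∃ Q : ℝ, Q = ((conv 1 (k + 1)).2 : ℝ) := ⟨_, rfl⟩
  obtain ⟨P, hP⟩ : ∃ P : ℝ, P = ((conv 1 (k + 1)).1 : ℝ) := ⟨_, rfl⟩
  obtain ⟨R, hR⟩ : ∃ R : ℝ, R = ((conv 2 (2 * k + 2)).2 : ℝ) := ⟨_, rfl⟩
  obtain ⟨T, hT⟩ : ∃ T : ℝ, T = ((conv 2 (j + 1)).2 : ℝ) := ⟨_, rfl⟩
  obtain ⟨p1, p2⟩ := P_bounds (by omega : 1 ≤ k)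
  obtain ⟨r1, r2⟩ := ratio k
  rw [← hQ, ← hP] at p1 p2
  rw [← hQ, ← hR] at r1 r2
  have hQ1 : 1 ≤ Q := by rw [hQ]; exact_mod_cast q_pos (Or.inl rfl) k
  have hQ2 : 0 < Q ^ 2 := by positivity
  have hR0 : 0 ≤ R := by rw [hR]; exact Nat.cast_nonneg _
  have hT0 : 0 ≤ T := by rw [hT]; exact Nat.cast_nonneg _
  have r1' : 2 * Q ^ 2 ≤ R := by
    have h0 : ((k : ℝ) + 1) * (2 * Q ^ 2) ≤ (k + 1) * R := by linarith
    exact le_of_mul_le_mul_left h0 (by positivity)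
  have r2' : R ≤ 4 * Q ^ 2 := by
    have h0 : ((k : ℝ) + 1) * R ≤ (k + 1) * (4 * Q ^ 2) := by linarith
    exact le_of_mul_le_mul_left h0 (by positivity)
  have heq : 2 * ((d' : ℝ) * T) = 3 * ((d : ℝ) ^ 2 * (P * Q)) := by
    have e1 : (a + b + 1) * (b - a) = 2 * k0 := hk0
    rw [dU, dV] at e1
    have e2 : 2 * (3 * k0) = 3 * (d * (conv 1 (k + 1)).1 * (d * (conv 1 (k + 1)).2)) := by rw [e1]; ring
    rw [dY] at e2
    have e3 : 2 * ((d' : ℝ) * ((conv 2 (j + 1)).2 : ℝ)) = 3 * ((d : ℝ) * ((conv 1 (k + 1)).1 : ℝ) * (d * ((conv 1 (k + 1)).2 : ℝ))) := by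
      exact_mod_cast e2
    rw [hT, hP, hQ, e3]; ring
  have PQ1 : 2.15 * Q ^ 2 ≤ P * Q := by
    have := mul_le_mul_of_nonneg_right p1 (by linarith : 0 ≤ Q)
    linarith
  have PQ2 : P * Q ≤ 2.18 * Q ^ 2 := by
    have := mul_le_mul_of_nonneg_right p2 (by linarith : 0 ≤ Q)
    linarith
  have hk3R : (3 : ℝ) ≤ k := by exact_mod_cast hk3
  have hd'R : (1 : ℝ) ≤ d' := by exact_mod_cast hd'
  rcases Nat.lt_or_ge (2 * k + 1) j with hj | hj
  · -- `j + 1 ≥ 2 k + 3`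
    have t1 : (4 * (k : ℝ) + 5) * R ≤ T := by
      have hm := q_mono (Or.inr rfl : (2 : ℕ) = 1 ∨ (2 : ℕ) = 2) (by omega : 2 * k + 3 ≤ j + 1)
      have q3 : quot 2 (2 * k + 2) = 4 * k + 5 := by unfold quot; omega
      have e0 : (4 * k + 5) * (conv 2 (2 * k + 2)).2 ≤ (conv 2 (2 * k + 3)).2 := by
        show (4 * k + 5) * (conv 2 (2 * k + 2)).2 ≤ quot 2 (2 * k + 1 + 1) * (conv 2 (2 * k + 1 + 1)).2 + (conv 2 (2 * k + 1)).2
        rw [show 2 * k + 1 + 1 = 2 * k + 2 from rfl, q3]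
        omega
      rw [hR, hT]
      exact_mod_cast le_trans e0 hm
    have t2 : 4 * (4 * (k : ℝ) + 5) * Q ^ 2 ≤ 2 * (d' * T) := by
      have u1 : (4 * (k : ℝ) + 5) * (2 * Q ^ 2) ≤ T := le_trans (mul_le_mul_of_nonneg_left r1' (by positivity)) t1
      have u2 : T ≤ d' * T := by
        have := mul_le_mul_of_nonneg_right hd'R hT0
        linarith
      linarith
    have t3 : 3 * ((d : ℝ) ^ 2 * (P * Q)) ≤ 1.3734 * (4 * (k : ℝ) + 7) * Q ^ 2 := by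
      have u1 : (d : ℝ) ^ 2 * (P * Q) ≤ (21 / 100 * (4 * (k : ℝ) + 7)) * (2.18 * Q ^ 2) :=
        mul_le_mul b2 PQ2 (by nlinarith) (by positivity)
      norm_num at u1 ⊢
      linarith
    rw [heq] at t2
    have t4 := t2.trans t3
    have t5 := le_of_mul_le_mul_right t4 hQ2
    norm_num at t5
    linarith
  · -- `j + 1 ≤ 2 k + 2`
    have t1 : T ≤ R := by
      have hm := q_mono (Or.inr rfl : (2 : ℕ) = 1 ∨ (2 : ℕ) = 2) (by omega : j + 1 ≤ 2 * k + 2)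
      rw [hR, hT]
      exact_mod_cast hm
    have t2 : 2 * ((d' : ℝ) * T) ≤ 8 * d' * Q ^ 2 := by
      have u1 : (d' : ℝ) * T ≤ d' * (4 * Q ^ 2) := mul_le_mul_of_nonneg_left (t1.trans r2') (by linarith)
      linarith
    have t3 : 1.2255 * (4 * (k : ℝ) + 6) * Q ^ 2 ≤ 3 * ((d : ℝ) ^ 2 * (P * Q)) := by
      have u1 : (19 / 100 * (4 * (k : ℝ) + 6)) * (2.15 * Q ^ 2) ≤ (d : ℝ) ^ 2 * (P * Q) :=
        mul_le_mul b1 PQ1 (by positivity) (by positivity)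
      norm_num at u1 ⊢
      linarith
    rw [heq] at t2
    have t4 := t3.trans t2
    have t5 := le_of_mul_le_mul_right t4 hQ2
    have hjk : (j : ℝ) ≤ 2 * k + 1 := by exact_mod_cast hj
    have t6 : (1.2255 * (4 * (k : ℝ) + 6)) ^ 2 ≤ (8 * d') ^ 2 := pow_le_pow_left₀ (by positivity) t5 2
    norm_num at t6
    nlinarith

/-- the complete list -/
theorem one_list {a b m : ℕ} : Sol a b m 1 ↔
    (a = 1 ∧ b = 2 ∧ m = 2) ∨ (a = 1 ∧ b = 3 ∧ m = 6) ∨ (a = 2 ∧ b = 6 ∧ m = 20) := by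
  constructor
  · intro h
    rcases Nat.lt_or_ge b 149 with hb | hb
    · exact small_list h hb
    · exact (no_large h hb).elim
  · obtain ⟨c1, c2, c3⟩ := small_conv
    rintro (⟨rfl, rfl, rfl⟩ | ⟨rfl, rfl, rfl⟩ | ⟨rfl, rfl, rfl⟩)
    · exact c1
    · exact c2
    · exact c3

end Pool.Agent.VO5
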