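import Pool.Agent.UCF.Main

/-!
Legendre's criterion for the convergents of `coth (s / 2)`, `s = 1, 2`, with the size of the common factor, and the comparison of
the denominators of the two expansions (helper5).
-/

namespace Pool.Agent.VO5

open Pool.Agent.UCF

theorem locate {s : ℕ} (hs : s = 1 ∨ s = 2) {V : ℕ} (hV : 1 ≤ V) :
    ∃ k, (conv s (k + 1)).2 ≤ V ∧ V < (conv s (k + 1 + 1)).2 := by
  classical
  have hex : ∃ m, V < (conv s m).2 := ⟨V + 1, by have := q_ge hs (V + 1); omega⟩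
  obtain ⟨m, hm⟩ : ∃ m, m = Nat.find hex := ⟨_, rfl⟩
  have hm1 : V < (conv s m).2 := hm ▸ Nat.find_spec hex
  have hmin : ∀ k, k < m → (conv s k).2 ≤ V := by
    intro k hk
    have := Nat.find_min hex (m := k) (by omega)
    omega
  have h0 : m ≠ 0 := by
    rintro rfl
    simp [conv] at hm1
  have h1 : m ≠ 1 := by
    rintro rfl
    simp [conv] at hm1
    omega
  obtain ⟨k, rfl⟩ : ∃ k, m = k + 1 + 1 := ⟨m - 2, by omega⟩
  exact ⟨k, hmin (k + 1) (by omega), hm1⟩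

/-- best approximation -/
theorem best {s : ℕ} (hs : s = 1 ∨ s = 2) {n U V : ℕ} (hV : 1 ≤ V) (hV2 : V < (conv s (n + 1)).2)
    (hne : (U : ℤ) * (conv s n).2 - V * (conv s n).1 ≠ 0) : D s n ≤ |(U : ℝ) - hh s * V| := by
  obtain ⟨P, hP⟩ : ∃ P : ℤ, P = (conv s n).1 := ⟨_, rfl⟩
  obtain ⟨Q, hQ⟩ : ∃ Q : ℤ, Q = (conv s n).2 := ⟨_, rfl⟩
  obtain ⟨P', hP'⟩ : ∃ P' : ℤ, P' = (conv s (n + 1)).1 := ⟨_, rfl⟩
  obtain ⟨Q', hQ'⟩ : ∃ Q' : ℤ, Q' = (conv s (n + 1)).2 := ⟨_, rfl⟩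
  obtain ⟨e, he⟩ : ∃ e : ℤ, e = (-1) ^ n := ⟨_, rfl⟩
  have hdet : P * Q' - P' * Q = e := by rw [hP, hQ, hP', hQ', he]; exact coprime_conv s n
  have hee : e * e = 1 := by rw [he, ← mul_pow]; simp
  have hQ0 : 0 ≤ Q := by rw [hQ]; positivity
  have hVQ : (V : ℤ) < Q' := by rw [hQ']; exact_mod_cast hV2
  have hV1 : (1 : ℤ) ≤ V := by exact_mod_cast hV
  rw [← hP, ← hQ] at hne
  obtain ⟨z, hz⟩ : ∃ z : ℤ, z = (U : ℤ) * Q - V * P := ⟨_, rfl⟩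
  obtain ⟨w, hw⟩ : ∃ w : ℤ, w = (U : ℤ) * Q' - V * P' := ⟨_, rfl⟩
  rw [← hz] at hne
  have hI : e * V = w * Q - z * Q' := by
    rw [← hdet, hz, hw]; ring
  have hI' : (V : ℤ) = (e * w) * Q - (e * z) * Q' := by
    have : (V : ℤ) = e * (e * V) := by rw [← mul_assoc, hee, one_mul]
    rw [this, hI]; ring
  have hD0 := D_nonneg (s := s) n
  have hD1 := D_nonneg (s := s) (n + 1)
  have hII : (U : ℝ) - hh s * V = w * D s n + z * D s (n + 1) := by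
    have d0 := D_eq hs n
    have d1 := D_eq hs (n + 1)
    have eP : ((conv s n).1 : ℝ) = (P : ℝ) := by rw [hP]; push_cast; rfl
    have eQ : ((conv s n).2 : ℝ) = (Q : ℝ) := by rw [hQ]; push_cast; rfl
    have eP' : ((conv s (n + 1)).1 : ℝ) = (P' : ℝ) := by rw [hP']; push_cast; rfl
    have eQ' : ((conv s (n + 1)).2 : ℝ) = (Q' : ℝ) := by rw [hQ']; push_cast; rfl
    have ee : ((-1 : ℝ)) ^ n = (e : ℝ) := by rw [he]; push_cast; rfl
    rw [eP, eQ, ee] at d0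
    rw [eP', eQ', pow_succ, ee] at d1
    have hdetR : (P : ℝ) * Q' - P' * Q = e := by exact_mod_cast hdet
    have heeR : (e : ℝ) * e = 1 := by exact_mod_cast hee
    rw [d0, d1, hz, hw]
    push_cast
    have : ((U : ℝ) * Q' - V * P') * (e * ((P : ℝ) - hh s * Q)) + ((U : ℝ) * Q - V * P) * (e * -1 * ((P' : ℝ) - hh s * Q')) =
        e * ((U : ℝ) - hh s * V) * ((P : ℝ) * Q' - P' * Q) := by ring
    rw [this, hdetR]
    have e2 : (e : ℝ) * ((U : ℝ) - hh s * V) * e = (e * e) * ((U : ℝ) - hh s * V) := by ring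
    rw [e2, heeR, one_mul]
  have hz0 : e * z ≠ 0 := by
    intro h
    have : e * (e * z) = 0 := by rw [h, mul_zero]
    rw [← mul_assoc, hee, one_mul] at this
    exact hne this
  have heR : (e : ℝ) * e = 1 := by exact_mod_cast hee
  have habs : |(U : ℝ) - hh s * V| = |((e * w : ℤ) : ℝ) * D s n + ((e * z : ℤ) : ℝ) * D s (n + 1)| := by
    have h1 : ((e * w : ℤ) : ℝ) * D s n + ((e * z : ℤ) : ℝ) * D s (n + 1) = (e : ℝ) * ((U : ℝ) - hh s * V) := by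
      rw [hII]; push_cast; ring
    have h2 : |(e : ℝ)| = 1 := by
      have : |(e : ℝ)| * |(e : ℝ)| = 1 := by rw [← abs_mul, heR, abs_one]
      nlinarith [abs_nonneg (e : ℝ)]
    rw [h1, abs_mul, h2, one_mul]
  rw [habs]
  rcases lt_or_gt_of_ne hz0 with hneg | hpos
  · have hw' : e * w ≤ -1 := by
      by_contra hc
      push Not at hc
      have h1 : 0 ≤ e * w := by omega
      nlinarith
    have h1 : ((e * w : ℤ) : ℝ) ≤ -1 := by exact_mod_cast hw'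
    have h2 : ((e * z : ℤ) : ℝ) ≤ 0 := by exact_mod_cast hneg.le
    rw [← abs_neg]
    refine le_trans ?_ (le_abs_self _)
    nlinarith
  · have hw' : 1 ≤ e * w := by
      by_contra hc
      push Not at hc
      have h1 : e * w ≤ 0 := by omega
      nlinarith
    have h1 : (1 : ℝ) ≤ ((e * w : ℤ) : ℝ) := by exact_mod_cast hw'
    have h2 : (0 : ℝ) ≤ ((e * z : ℤ) : ℝ) := by exact_mod_cast hpos.le
    refine le_trans ?_ (le_abs_self _)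
    nlinarith

theorem DD {s : ℕ} (hs : s = 1 ∨ s = 2) (n : ℕ) : (2 * (n : ℝ) + 3) * D s (n + 1) ≤ D s n := by
  have r3 := D_rec hs n
  have D2 := D_nonneg (s := s) (n + 2)
  have D1 := D_nonneg (s := s) (n + 1)
  have h : ((2 * (n + 1) + 1 : ℕ) : ℝ) ≤ (quot s (n + 1) : ℝ) := by exact_mod_cast quot_ge hs (n + 1)
  push_cast at h
  nlinarith

theorem yy {s : ℕ} (hs : s = 1 ∨ s = 2) (k : ℕ) :
    (quot s (k + 1) : ℝ) * (((conv s (k + 1)).2 : ℝ) * D s (k + 1)) ≤ 1 ∧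
    1 ≤ ((quot s (k + 1) : ℝ) + 1) * (((conv s (k + 1)).2 : ℝ) * D s (k + 1)) := by
  refine ⟨(y_bounds hs (by omega)).1, ?_⟩
  have w := D_wronski hs (k + 1)
  have e : ((conv s (k + 1 + 1)).2 : ℝ) = (quot s (k + 1) : ℝ) * ((conv s (k + 1)).2 : ℝ) + ((conv s k).2 : ℝ) := by
    simp only [conv]; push_cast; ring
  rw [e] at w
  have h1 := DD hs (k + 1)
  have D1 := D_nonneg (s := s) (k + 1)
  have D2 := D_nonneg (s := s) (k + 2)
  have e2 : D s (k + 1 + 1) = D s (k + 2) := rfl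
  rw [e2] at w h1
  push_cast at h1
  have c0 : (0 : ℝ) ≤ ((conv s k).2 : ℝ) := Nat.cast_nonneg _
  have c1 : (0 : ℝ) ≤ ((conv s (k + 1)).2 : ℝ) := Nat.cast_nonneg _
  have hk0 : (0 : ℝ) ≤ k := Nat.cast_nonneg _
  -- D (k + 2) Q ≤ Q D / 5 and Q_k D ≤ Q D / 3 (or `k = 0`)
  have a1 : D s (k + 2) * ((conv s (k + 1)).2 : ℝ) * 5 ≤ ((conv s (k + 1)).2 : ℝ) * D s (k + 1) := by
    have h2 : 5 * D s (k + 2) ≤ D s (k + 1) := by nlinarith
    nlinarith [mul_le_mul_of_nonneg_left h2 c1]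
  have a2 : ((conv s k).2 : ℝ) * D s (k + 1) * 3 ≤ ((conv s (k + 1)).2 : ℝ) * D s (k + 1) := by
    rcases Nat.eq_zero_or_pos k with rfl | hk
    · have : ((conv s 0).2 : ℝ) = 0 := by simp [conv]
      rw [this, zero_mul, zero_mul]
      exact mul_nonneg c1 D1
    · have m1 : (2 * (k : ℝ) + 1) * ((conv s k).2 : ℝ) ≤ ((conv s (k + 1)).2 : ℝ) := by exact_mod_cast q_grow hs k
      have hk1 : (1 : ℝ) ≤ k := by exact_mod_cast hk
      have : 3 * ((conv s k).2 : ℝ) ≤ ((conv s (k + 1)).2 : ℝ) := by nlinarith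
      nlinarith [mul_le_mul_of_nonneg_right this D1]
  have a3 : 0 ≤ ((conv s (k + 1)).2 : ℝ) * D s (k + 1) := mul_nonneg c1 D1
  nlinarith

/-- Legendre's criterion, with the size of the common factor -/
theorem legendre {s : ℕ} (hs : s = 1 ∨ s = 2) {U V : ℕ} (hV : 1 ≤ V)
    (hE : (V : ℝ) * |(U : ℝ) - hh s * V| < 1 / 2) : ∃ k d : ℕ, 1 ≤ d ∧ U = d * (conv s (k + 1)).1 ∧
      V = d * (conv s (k + 1)).2 ∧
      (V : ℝ) * |(U : ℝ) - hh s * V| * quot s (k + 1) ≤ (d : ℝ) ^ 2 ∧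
      (d : ℝ) ^ 2 ≤ (V : ℝ) * |(U : ℝ) - hh s * V| * (quot s (k + 1) + 1) := by
  obtain ⟨k, hk1, hk2⟩ := locate hs hV
  have hz : (U : ℤ) * (conv s (k + 1)).2 - V * (conv s (k + 1)).1 = 0 := by
    by_contra hne
    have hb := best hs hV hk2 hne
    obtain ⟨E, hEd⟩ : ∃ E : ℝ, E = (U : ℝ) - hh s * V := ⟨_, rfl⟩
    rw [← hEd] at hE hb
    have hV0 : (0 : ℝ) ≤ V := Nat.cast_nonneg V
    have key : |(((U : ℤ) * (conv s (k + 1)).2 - V * (conv s (k + 1)).1 : ℤ) : ℝ)| ≤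
        ((conv s (k + 1)).2 : ℝ) * |E| + V * D s (k + 1) := by
      have e : (((U : ℤ) * (conv s (k + 1)).2 - V * (conv s (k + 1)).1 : ℤ) : ℝ) =
          ((conv s (k + 1)).2 : ℝ) * E - V * (((conv s (k + 1)).1 : ℝ) - hh s * ((conv s (k + 1)).2 : ℝ)) := by
        rw [hEd]; push_cast; ring
      rw [e]
      refine le_trans (abs_sub _ _) ?_
      rw [abs_mul, abs_mul, D_abs hs, abs_of_nonneg hV0, abs_of_nonneg (Nat.cast_nonneg _)]
    have hqn : ((conv s (k + 1)).2 : ℝ) ≤ V := by exact_mod_cast hk1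
    have g1 := mul_le_mul_of_nonneg_right hqn (abs_nonneg E)
    have g2 := mul_le_mul_of_nonneg_left hb hV0
    exact hne (int_zero (by linarith))
  have hUV : U * (conv s (k + 1)).2 = V * (conv s (k + 1)).1 := by
    have : (U : ℤ) * (conv s (k + 1)).2 = V * (conv s (k + 1)).1 := by linarith
    exact_mod_cast this
  obtain ⟨d, d1, d2, -⟩ := multiple (q_pos hs k) hUV
  have hd : 1 ≤ d := by
    rcases Nat.eq_zero_or_pos d with h0 | h0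
    · rw [h0, zero_mul] at d2; omega
    · exact h0
  refine ⟨k, d, hd, d1, d2, ?_⟩
  obtain ⟨y1, y2⟩ := yy hs k
  obtain ⟨y, hy⟩ : ∃ y : ℝ, y = ((conv s (k + 1)).2 : ℝ) * D s (k + 1) := ⟨_, rfl⟩
  have hWd : (V : ℝ) * |(U : ℝ) - hh s * V| = (d : ℝ) ^ 2 * y := by
    rw [d1, d2, hy, ← D_abs hs]
    push_cast
    have e : (d : ℝ) * ((conv s (k + 1)).1 : ℝ) - hh s * ((d : ℝ) * ((conv s (k + 1)).2 : ℝ)) =
      d * (((conv s (k + 1)).1 : ℝ) - hh s * ((conv s (k + 1)).2 : ℝ)) := by ring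
    rw [e, abs_mul, abs_of_nonneg (Nat.cast_nonneg d : (0 : ℝ) ≤ (d : ℝ))]
    ring
  rw [hWd]
  rw [← hy] at y1 y2
  have hd2 : 0 ≤ (d : ℝ) ^ 2 := by positivity
  constructor
  · nlinarith
  · nlinarith

/-- the denominators: `(2 n + 3) Q ^ 2 ≤ (n + 1) Q'` and `(n + 1) Q' ≤ (4 n + 3) Q ^ 2`
for `Q = (conv 1 (n + 1)).2`, `Q' = (conv 2 (2 n + 2)).2` -/
theorem ratio (n : ℕ) : (2 * (n : ℝ) + 3) * ((conv 1 (n + 1)).2 : ℝ) ^ 2 ≤ ((n : ℝ) + 1) * ((conv 2 (2 * n + 2)).2 : ℝ) ∧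
    ((n : ℝ) + 1) * ((conv 2 (2 * n + 2)).2 : ℝ) ≤ (4 * (n : ℝ) + 3) * ((conv 1 (n + 1)).2 : ℝ) ^ 2 := by
  induction n with
  | zero => norm_num [conv, quot]
  | succ n ih =>
    obtain ⟨i1, i2⟩ := ih
    have hn : (0 : ℝ) ≤ n := Nat.cast_nonneg n
    have q1 : quot 1 (n + 1) = 4 * n + 6 := by unfold quot; omega
    have q2 : quot 2 (2 * n + 3) = 4 * n + 7 := by unfold quot; omega
    have q3 : quot 2 (2 * n + 2) = 4 * n + 5 := by unfold quot; omega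
    have q4 : quot 2 (2 * n + 1) = 4 * n + 3 := by unfold quot; omega
    obtain ⟨Q, hQ⟩ : ∃ Q : ℝ, Q = ((conv 1 (n + 1)).2 : ℝ) := ⟨_, rfl⟩
    obtain ⟨q, hq⟩ : ∃ q : ℝ, q = ((conv 1 n).2 : ℝ) := ⟨_, rfl⟩
    obtain ⟨R, hR⟩ : ∃ R : ℝ, R = ((conv 2 (2 * n + 2)).2 : ℝ) := ⟨_, rfl⟩
    obtain ⟨r, hr⟩ : ∃ r : ℝ, r = ((conv 2 (2 * n + 1)).2 : ℝ) := ⟨_, rfl⟩
    obtain ⟨t, ht⟩ : ∃ t : ℝ, t = ((conv 2 (2 * n)).2 : ℝ) := ⟨_, rfl⟩
    have eQ : ((conv 1 (n + 1 + 1)).2 : ℝ) = (4 * n + 6) * Q + q := by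
      show (((quot 1 (n + 1) * (conv 1 (n + 1)).2 + (conv 1 n).2 : ℕ)) : ℝ) = _
      rw [q1, hQ, hq]; push_cast; ring
    have eR3 : ((conv 2 (2 * n + 3)).2 : ℝ) = (4 * n + 5) * R + r := by
      show (((quot 2 (2 * n + 1 + 1) * (conv 2 (2 * n + 1 + 1)).2 + (conv 2 (2 * n + 1)).2 : ℕ)) : ℝ) = _
      rw [show 2 * n + 1 + 1 = 2 * n + 2 from rfl, q3, hR, hr]; push_cast; ring
    have eR4 : ((conv 2 (2 * (n + 1) + 2)).2 : ℝ) = (4 * n + 7) * ((4 * n + 5) * R + r) + R := by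
      have e0 : 2 * (n + 1) + 2 = 2 * n + 2 + 1 + 1 := by ring
      rw [e0]
      show (((quot 2 (2 * n + 2 + 1) * (conv 2 (2 * n + 2 + 1)).2 + (conv 2 (2 * n + 2)).2 : ℕ)) : ℝ) = _
      rw [show 2 * n + 2 + 1 = 2 * n + 3 from rfl, q2]
      push_cast
      rw [eR3, hR]
    have eR2 : R = (4 * n + 3) * r + t := by
      rw [hR]
      show (((quot 2 (2 * n + 1) * (conv 2 (2 * n + 1)).2 + (conv 2 (2 * n)).2 : ℕ)) : ℝ) = _
      rw [q4, hr, ht]; push_cast; ring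
    have ht0 : 0 ≤ t := by rw [ht]; exact Nat.cast_nonneg _
    have hr0 : 0 ≤ r := by rw [hr]; exact Nat.cast_nonneg _
    have hq0 : 0 ≤ q := by rw [hq]; exact Nat.cast_nonneg _
    have hQ0 : 0 ≤ Q := by rw [hQ]; exact Nat.cast_nonneg _
    have hR0 : 0 ≤ R := by rw [hR]; exact Nat.cast_nonneg _
    -- `(4 n + 2) q ≤ Q`
    have hqQ : (4 * (n : ℝ) + 2) * q ≤ Q := by
      rw [hq, hQ]
      cases n with
      | zero => simp [conv]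
      | succ j =>
        have q5 : quot 1 (j + 1) = 4 * j + 6 := by unfold quot; omega
        have : (4 * (j + 1) + 2) * (conv 1 (j + 1)).2 ≤ (conv 1 (j + 1 + 1)).2 := by
          show (4 * (j + 1) + 2) * (conv 1 (j + 1)).2 ≤ quot 1 (j + 1) * (conv 1 (j + 1)).2 + (conv 1 j).2
          rw [q5]
          have : 4 * (j + 1) + 2 = 4 * j + 6 := by ring
          rw [this]
          omega
        exact_mod_cast this
    rw [← hQ, ← hR] at i1 i2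
    rw [eQ, eR4]
    push_cast
    have hrR : (4 * (n : ℝ) + 3) * r ≤ R := by linarith
    have ex : (4 * (n : ℝ) + 7) * ((4 * n + 5) * R + r) + R = (4 * n + 6) ^ 2 * R + (4 * n + 7) * r := by ring
    rw [ex]
    constructor
    · -- lower bound
      -- `((4n+6) Q + q)^2 ≤ (4n+6)^2 Q^2 (1 + 1/((4n+2)(4n+6)))^2`
      have h1 : (4 * (n : ℝ) + 2) * ((4 * n + 6) * Q + q) ≤ ((4 * n + 2) * (4 * n + 6) + 1) * Q := by nlinarith
      have h2 : ((4 * (n : ℝ) + 2) * ((4 * n + 6) * Q + q)) ^ 2 ≤ (((4 * n + 2) * (4 * n + 6) + 1) * Q) ^ 2 :=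
        pow_le_pow_left₀ (by positivity) h1 2
      have h3 : (2 * ((n : ℝ) + 1) + 3) * ((n : ℝ) + 1) * (((4 * n + 2) * (4 * n + 6) + 1)) ^ 2 ≤
          ((n : ℝ) + 1 + 1) * (4 * n + 6) ^ 2 * (2 * n + 3) * (4 * n + 2) ^ 2 := by
        have e1 : ((n : ℝ) + 1 + 1) * (4 * n + 6) ^ 2 * (2 * n + 3) * (4 * n + 2) ^ 2 -
            (2 * ((n : ℝ) + 1) + 3) * ((n : ℝ) + 1) * (((4 * n + 2) * (4 * n + 6) + 1)) ^ 2 =
            192 * (n : ℝ) ^ 4 + 672 * (n : ℝ) ^ 3 + 750 * (n : ℝ) ^ 2 + 273 * n + 19 := by ring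
        have e2 : 0 ≤ 192 * (n : ℝ) ^ 4 + 672 * (n : ℝ) ^ 3 + 750 * (n : ℝ) ^ 2 + 273 * n + 19 := by positivity
        linarith
      have h4 : 0 < (4 * (n : ℝ) + 2) ^ 2 * ((n : ℝ) + 1) := by positivity
      have h5 : ((4 * (n : ℝ) + 2) ^ 2 * ((n : ℝ) + 1)) * ((2 * ((n : ℝ) + 1) + 3) * ((4 * n + 6) * Q + q) ^ 2) ≤
          ((4 * (n : ℝ) + 2) ^ 2 * ((n : ℝ) + 1)) * (((n : ℝ) + 1 + 1) * ((4 * n + 6) ^ 2 * R)) := by
        calc ((4 * (n : ℝ) + 2) ^ 2 * ((n : ℝ) + 1)) * ((2 * ((n : ℝ) + 1) + 3) * ((4 * n + 6) * Q + q) ^ 2)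
            = (2 * ((n : ℝ) + 1) + 3) * ((n : ℝ) + 1) * ((4 * (n : ℝ) + 2) * ((4 * n + 6) * Q + q)) ^ 2 := by ring
          _ ≤ (2 * ((n : ℝ) + 1) + 3) * ((n : ℝ) + 1) * (((4 * n + 2) * (4 * n + 6) + 1) * Q) ^ 2 :=
            mul_le_mul_of_nonneg_left h2 (by positivity)
          _ = ((2 * ((n : ℝ) + 1) + 3) * ((n : ℝ) + 1) * (((4 * n + 2) * (4 * n + 6) + 1)) ^ 2) * Q ^ 2 := by ring
          _ ≤ (((n : ℝ) + 1 + 1) * (4 * n + 6) ^ 2 * (2 * n + 3) * (4 * n + 2) ^ 2) * Q ^ 2 :=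
            mul_le_mul_of_nonneg_right h3 (by positivity)
          _ = (((n : ℝ) + 1 + 1) * (4 * n + 6) ^ 2 * (4 * n + 2) ^ 2) * ((2 * n + 3) * Q ^ 2) := by ring
          _ ≤ (((n : ℝ) + 1 + 1) * (4 * n + 6) ^ 2 * (4 * n + 2) ^ 2) * (((n : ℝ) + 1) * R) :=
            mul_le_mul_of_nonneg_left i1 (by positivity)
          _ = ((4 * (n : ℝ) + 2) ^ 2 * ((n : ℝ) + 1)) * (((n : ℝ) + 1 + 1) * ((4 * n + 6) ^ 2 * R)) := by ring
      have h6 := le_of_mul_le_mul_left h5 h4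
      have h7 : 0 ≤ ((n : ℝ) + 1 + 1) * ((4 * n + 7) * r) := by positivity
      linarith
    · -- upper bound
      have h1 : (4 * (n : ℝ) + 6) ^ 2 * Q ^ 2 ≤ ((4 * n + 6) * Q + q) ^ 2 := by nlinarith [mul_nonneg hQ0 hq0]
      have h2 : (4 * (n : ℝ) + 3) * ((4 * n + 6) ^ 2 * R + (4 * n + 7) * r) ≤ ((4 * n + 3) * (4 * n + 6) ^ 2 + (4 * n + 7)) * R := by
        have e1 := mul_le_mul_of_nonneg_left hrR (by positivity : 0 ≤ 4 * (n : ℝ) + 7)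
        linarith
      have h3 : ((n : ℝ) + 1 + 1) * ((4 * n + 3) * (4 * n + 6) ^ 2 + (4 * n + 7)) * (4 * n + 3) ≤
          (4 * ((n : ℝ) + 1) + 3) * (4 * n + 6) ^ 2 * (n + 1) * (4 * n + 3) := by
        have e1 : (4 * ((n : ℝ) + 1) + 3) * (4 * n + 6) ^ 2 * (n + 1) * (4 * n + 3) -
            ((n : ℝ) + 1 + 1) * ((4 * n + 3) * (4 * n + 6) ^ 2 + (4 * n + 7)) * (4 * n + 3) =
            (12 * (n : ℝ) ^ 2 + 33 * n + 22) * (4 * n + 3) := by ring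
        have e2 : 0 ≤ (12 * (n : ℝ) ^ 2 + 33 * n + 22) * (4 * n + 3) := by positivity
        linarith
      have h4 : 0 < (4 * (n : ℝ) + 3) * ((n : ℝ) + 1) := by positivity
      have h5 : ((4 * (n : ℝ) + 3) * ((n : ℝ) + 1)) * (((n : ℝ) + 1 + 1) * ((4 * n + 6) ^ 2 * R + (4 * n + 7) * r)) ≤
          ((4 * (n : ℝ) + 3) * ((n : ℝ) + 1)) * ((4 * ((n : ℝ) + 1) + 3) * ((4 * n + 6) * Q + q) ^ 2) := by
        calc ((4 * (n : ℝ) + 3) * ((n : ℝ) + 1)) * (((n : ℝ) + 1 + 1) * ((4 * n + 6) ^ 2 * R + (4 * n + 7) * r))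
            = (((n : ℝ) + 1 + 1) * ((n : ℝ) + 1)) * ((4 * (n : ℝ) + 3) * ((4 * n + 6) ^ 2 * R + (4 * n + 7) * r)) := by ring
          _ ≤ (((n : ℝ) + 1 + 1) * ((n : ℝ) + 1)) * (((4 * n + 3) * (4 * n + 6) ^ 2 + (4 * n + 7)) * R) :=
            mul_le_mul_of_nonneg_left h2 (by positivity)
          _ = (((n : ℝ) + 1 + 1) * ((4 * n + 3) * (4 * n + 6) ^ 2 + (4 * n + 7))) * (((n : ℝ) + 1) * R) := by ring
          _ ≤ (((n : ℝ) + 1 + 1) * ((4 * n + 3) * (4 * n + 6) ^ 2 + (4 * n + 7))) * ((4 * (n : ℝ) + 3) * Q ^ 2) :=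
            mul_le_mul_of_nonneg_left i2 (by positivity)
          _ = (((n : ℝ) + 1 + 1) * ((4 * n + 3) * (4 * n + 6) ^ 2 + (4 * n + 7)) * (4 * n + 3)) * Q ^ 2 := by ring
          _ ≤ ((4 * ((n : ℝ) + 1) + 3) * (4 * n + 6) ^ 2 * (n + 1) * (4 * n + 3)) * Q ^ 2 :=
            mul_le_mul_of_nonneg_right h3 (by positivity)
          _ = ((4 * (n : ℝ) + 3) * ((n : ℝ) + 1) * (4 * ((n : ℝ) + 1) + 3)) * ((4 * n + 6) ^ 2 * Q ^ 2) := by ring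
          _ ≤ ((4 * (n : ℝ) + 3) * ((n : ℝ) + 1) * (4 * ((n : ℝ) + 1) + 3)) * ((4 * n + 6) * Q + q) ^ 2 :=
            mul_le_mul_of_nonneg_left h1 (by positivity)
          _ = _ := by ring
      exact le_of_mul_le_mul_left h5 h4

end Pool.Agent.VO5
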